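import Mathlib

/-!
# Baire category tools for jumps of equivalence relations
-/

open Set Filter Topology

namespace Pool.Agent.V5helper72.Jump

section General

variable {P Z : Type*} [TopologicalSpace P] [TopologicalSpace Z]

/-- A Borel map into a second countable space is continuous on a residual set. -/
theorem exists_residual_continuity [SecondCountableTopology Z]
    [MeasurableSpace P] [BorelSpace P] [MeasurableSpace Z] [OpensMeasurableSpace Z]
    {f : P → Z} (hf : Measurable f) :
    ∃ C ∈ residual P, ∀ p ∈ C, ∀ O : Set Z, IsOpen O → f p ∈ O →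
      ∃ N : Set P, IsOpen N ∧ p ∈ N ∧ ∀ q ∈ N, q ∈ C → f q ∈ O := by
  classical
  obtain ⟨B, hBc, -, hB⟩ := TopologicalSpace.exists_countable_basis Z
  have key : ∀ b : B, ∃ u : Set P, IsOpen u ∧ (f ⁻¹' (b : Set Z)) =ᵇ u := fun b =>
    (hf (hB.isOpen b.2).measurableSet).residualEq_isOpen
  choose u uo hu using key
  have hc : Countable B := hBc.to_subtype
  refine ⟨{p | ∀ b : B, (p ∈ f ⁻¹' (b : Set Z)) = (p ∈ u b)}, ?_, ?_⟩
  · have : ∀ᶠ p in residual P, ∀ b : B, (p ∈ f ⁻¹' (b : Set Z)) = (p ∈ u b) := by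
      rw [eventually_countable_forall]
      intro b
      exact hu b
    exact this
  · intro p hp O hO hpO
    obtain ⟨b, hb, hpb, hbO⟩ := hB.exists_subset_of_mem_open hpO hO
    refine ⟨u ⟨b, hb⟩, uo _, ?_, ?_⟩
    · rw [← hp ⟨b, hb⟩]; exact hpb
    · intro q hq hqC
      rw [← hqC ⟨b, hb⟩] at hq
      exact hbO hq

/-- A countable Borel cover of a nonempty open set in a Baire space has a member which is
residual on some nonempty open subset. -/
theorem exists_open_of_cover [BaireSpace P] [MeasurableSpace P] [BorelSpace P]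
    {ι : Type*} [Countable ι] (S : ι → Set P) (hS : ∀ i, MeasurableSet (S i))
    {W : Set P} (hW : IsOpen W) (hne : W.Nonempty) (hcov : ∀ p ∈ W, ∃ i, p ∈ S i) :
    ∃ i, ∃ U : Set P, IsOpen U ∧ U.Nonempty ∧ U ⊆ W ∧ ∀ᶠ p in residual P, p ∈ U → p ∈ S i := by
  choose u uo hu using fun i => (hS i).residualEq_isOpen
  by_contra hcon
  push Not at hcon
  have hempty : ∀ i, u i ∩ W = ∅ := by
    intro i
    by_contra hne'
    have hne'' : (u i ∩ W).Nonempty := nonempty_iff_ne_empty.mpr hne'
    have h1 := hcon i (u i ∩ W) ((uo i).inter hW) hne'' inter_subset_right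
    apply h1
    filter_upwards [hu i] with p hp hpU
    have hp' : (p ∈ S i) = (p ∈ u i) := hp
    apply hpU.2
    rw [hp']
    exact hpU.1.1
  have hall : ∀ᶠ p in residual P, ∀ i, (p ∈ S i) = (p ∈ u i) := by
    rw [eventually_countable_forall]
    intro i
    exact hu i
  have hd := dense_of_mem_residual hall
  obtain ⟨p, hpW, hp⟩ := hd.inter_open_nonempty W hW hne
  obtain ⟨i, hi⟩ := hcov p hpW
  have : p ∈ u i := by rw [← hp i]; exact hi
  have h2 : p ∈ u i ∩ W := ⟨this, hpW⟩
  rw [hempty i] at h2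
  exact h2

/-- Choose a point of a nonempty open set satisfying a generic property. -/
theorem exists_mem_open [BaireSpace P] {W : Set P} (hW : IsOpen W) (hne : W.Nonempty)
    {R : P → Prop} (hR : ∀ᶠ p in residual P, R p) : ∃ p ∈ W, R p := by
  obtain ⟨p, hpW, hp⟩ := (dense_of_mem_residual hR).inter_open_nonempty W hW hne
  exact ⟨p, hpW, hp⟩

end General

section Local

variable {I Y Γ Z : Type*} [TopologicalSpace Y] [Group Γ] [TopologicalSpace Γ]
  [DiscreteTopology Γ] [MulAction Γ Y] [ContinuousConstSMul Γ Y] [TopologicalSpace Z]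

/-- The coordinatewise action. -/
def act (γ : I → Γ) (x : I → Y) : I → Y := fun i => γ i • x i

theorem continuous_act : Continuous (fun q : (I → Y) × (I → Γ) => act q.2 q.1) := by
  apply continuous_pi
  intro i
  have : Continuous (fun q : Y × Γ => q.2 • q.1) := by
    rw [continuous_prod_of_discrete_right]
    intro g
    exact continuous_const_smul g
  exact this.comp (f := fun q : (I → Y) × (I → Γ) => (q.1 i, q.2 i))
    (((continuous_apply i).comp continuous_fst).prodMk
    ((continuous_apply i).comp continuous_snd))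

/-- The homeomorphism `(x, γ) ↦ (γ x, γ)`. -/
def actHomeo : ((I → Y) × (I → Γ)) ≃ₜ ((I → Y) × (I → Γ)) where
  toFun q := (act q.2 q.1, q.2)
  invFun q := (act (fun i => (q.2 i)⁻¹) q.1, q.2)
  left_inv q := by
    ext i <;> simp [act]
  right_inv q := by
    ext i <;> simp [act]
  continuous_toFun := continuous_act.prodMk continuous_snd
  continuous_invFun := by
    refine Continuous.prodMk ?_ continuous_snd
    have h : Continuous (fun q : (I → Y) × (I → Γ) => (q.1, (fun i => (q.2 i)⁻¹ : I → Γ))) := by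
      refine continuous_fst.prodMk ?_
      apply continuous_pi
      intro i
      exact (continuous_of_discreteTopology (f := fun g : Γ => g⁻¹)).comp
        ((continuous_apply i).comp continuous_snd)
    exact continuous_act.comp h

theorem isOpenMap_act : IsOpenMap (fun q : (I → Y) × (I → Γ) => act q.2 q.1) := by
  have : (fun q : (I → Y) × (I → Γ) => act q.2 q.1) = Prod.fst ∘ (actHomeo (I := I) (Y := Y) (Γ := Γ)) := rfl
  rw [this]
  exact isOpenMap_fst.comp (Homeomorph.isOpenMap _)

theorem tendsto_act [Countable I] :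
    Tendsto (fun q : (I → Y) × (I → Γ) => act q.2 q.1) (residual _) (residual _) :=
  tendsto_residual_of_isOpenMap continuous_act isOpenMap_act

/-- Local finite dependence. If `f : (I → Y) → Z` is Borel and for every `x` the values `f (γ x)`,
`γ ∈ I → Γ`, lie in a countable set depending on `x` in a Borel way, and `Γ` acts topologically
transitively on `Y`, then on small open sets `f` depends generically only on finitely many
coordinates. -/
theorem local_dep [Countable I] [PolishSpace Y] [Countable Γ] [T2Space Z]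
    [SecondCountableTopology Z] [MeasurableSpace Y] [BorelSpace Y]
    [MeasurableSpace Z] [BorelSpace Z]
    (htr : ∀ N N' : Set Y, IsOpen N → IsOpen N' → N.Nonempty → N'.Nonempty →
      ∃ δ : Γ, ∃ y ∈ N, δ • y ∈ N')
    {ι : Type*} [Countable ι] {f : (I → Y) → Z} (hf : Measurable f)
    {ψ : ι → (I → Y) → Z} (hψ : ∀ n, Measurable (ψ n))
    (hcov : ∀ (x : I → Y) (γ : I → Γ), ∃ n, f (act γ x) = ψ n x)
    {C : Set (I → Y)} (hC : C ∈ residual (I → Y))
    (hcont : ∀ p ∈ C, ∀ O : Set Z, IsOpen O → f p ∈ O →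
      ∃ N : Set (I → Y), IsOpen N ∧ p ∈ N ∧ ∀ q ∈ N, q ∈ C → f q ∈ O)
    {W : Set (I → Y)} (hW : IsOpen W) (hWne : W.Nonempty) :
    ∃ (A : Finset I) (U : Set (I → Y)), IsOpen U ∧ U.Nonempty ∧ U ⊆ W ∧
      (∀ p q : I → Y, p ∈ U → (∀ i ∈ A, p i = q i) → q ∈ U) ∧
      ∀ p ∈ C, ∀ q ∈ C, p ∈ U → (∀ i ∈ A, p i = q i) → f p = f q := by
  classical
  borelize Γ
  have hΓ2 : SecondCountableTopology Γ := inferInstance
  have hΓP : PolishSpace Γ := inferInstance
  let S : ι → Set ((I → Y) × (I → Γ)) := fun n => {q | f (act q.2 q.1) = ψ n q.1}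
  have hS : ∀ n, MeasurableSet (S n) := fun n =>
    measurableSet_eq_fun (hf.comp continuous_act.measurable) ((hψ n).comp measurable_fst)
  let W' : Set ((I → Y) × (I → Γ)) := {q | act q.2 q.1 ∈ W}
  have hW' : IsOpen W' := hW.preimage continuous_act
  obtain ⟨w, hw⟩ := hWne
  have hW'ne : W'.Nonempty := by
    refine ⟨(w, fun _ => 1), ?_⟩
    have h1 : act (fun _ => (1 : Γ)) w = w := by
      ext i; simp [act]
    show act (fun _ => (1 : Γ)) w ∈ W
    rwa [h1]
  obtain ⟨n, U₀, hU₀, ⟨⟨x₀, γ₀⟩, hxγ⟩, hU₀W, hgen⟩ :=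
    exists_open_of_cover S hS hW' hW'ne (fun q _ => hcov q.1 q.2)
  obtain ⟨u₁, v₁, hu₁, hv₁, hx₀, hγ₀, huv⟩ := isOpen_prod_iff.1 hU₀ x₀ γ₀ hxγ
  obtain ⟨I₁, u, hu, huu⟩ := isOpen_pi_iff.1 hu₁ x₀ hx₀
  obtain ⟨J₁, v, hv, hvv⟩ := isOpen_pi_iff.1 hv₁ γ₀ hγ₀
  let U : Set (I → Y) := {p | ∀ i ∈ I₁, (γ₀ i)⁻¹ • p i ∈ u i}
  have hUopen : IsOpen U := by
    have : U = ⋂ i ∈ I₁, {p : I → Y | (γ₀ i)⁻¹ • p i ∈ u i} := by
      ext p; simp [U]
    rw [this]
    refine isOpen_biInter_finset ?_
    intro i hi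
    exact (hu i hi).1.preimage ((continuous_const_smul _).comp (continuous_apply i))
  have hpU : ∀ p ∈ U, (act (fun i => (γ₀ i)⁻¹) p) ∈ u₁ := by
    intro p hp
    apply huu
    intro i hi
    exact hp i hi
  refine ⟨I₁ ∪ J₁, U, hUopen, ⟨act γ₀ x₀, ?_⟩, ?_, ?_, ?_⟩
  · intro i hi
    simpa [act] using (hu i hi).2
  · intro p hp
    have h1 : (act (fun i => (γ₀ i)⁻¹) p, γ₀) ∈ U₀ := huv ⟨hpU p hp, hγ₀⟩
    have h2 : act γ₀ (act (fun i => (γ₀ i)⁻¹) p) ∈ W := hU₀W h1
    have h3 : act γ₀ (act (fun i => (γ₀ i)⁻¹) p) = p := by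
      ext i; simp [act]
    rwa [h3] at h2
  · intro p q hp hpq i hi
    rw [← hpq i (Finset.mem_union_left _ hi)]
    exact hp i hi
  · intro p hp q hq hpU' hpq
    by_contra hne
    obtain ⟨O, O', hO, hO', hpO, hqO', hdis⟩ := t2_separation hne
    obtain ⟨N, hN, hpN, hNO⟩ := hcont p hp O hO hpO
    obtain ⟨N', hN', hqN', hNO'⟩ := hcont q hq O' hO' hqO'
    obtain ⟨B₁, b, hb, hbN⟩ := isOpen_pi_iff.1 hN p hpN
    obtain ⟨B₂, b', hb', hbN'⟩ := isOpen_pi_iff.1 hN' q hqN'
    let M : I → Set Y := fun i => if i ∈ B₁ then b i else univ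
    let M' : I → Set Y := fun i => if i ∈ B₂ then b' i else univ
    have hMo : ∀ i, IsOpen (M i) := by
      intro i
      by_cases h : i ∈ B₁
      · simpa [M, h] using (hb i h).1
      · simp [M, h]
    have hMo' : ∀ i, IsOpen (M' i) := by
      intro i
      by_cases h : i ∈ B₂
      · simpa [M', h] using (hb' i h).1
      · simp [M', h]
    have hpM : ∀ i, p i ∈ M i := by
      intro i
      by_cases h : i ∈ B₁
      · simpa [M, h] using (hb i h).2
      · simp [M, h]
    have hqM' : ∀ i, q i ∈ M' i := by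
      intro i
      by_cases h : i ∈ B₂
      · simpa [M', h] using (hb' i h).2
      · simp [M', h]
    choose δ y hyM hyM' using fun i => htr (M i) (M' i) (hMo i) (hMo' i) ⟨_, hpM i⟩ ⟨_, hqM' i⟩
    -- the witness
    let x : I → Y := fun i => if i ∈ I₁ ∪ J₁ then (γ₀ i)⁻¹ • p i else y i
    let γ : I → Γ := fun i => if i ∈ I₁ ∪ J₁ then γ₀ i else 1
    let γ₂ : I → Γ := fun i => if i ∈ I₁ ∪ J₁ then γ₀ i else δ i
    let G : Set ((I → Y) × ((I → Γ) × (I → Γ))) :=
      {t | (t.1, t.2.1) ∈ U₀ ∧ (t.1, t.2.2) ∈ U₀ ∧ act t.2.1 t.1 ∈ N ∧ act t.2.2 t.1 ∈ N'}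
    have c1 : Continuous (fun t : (I → Y) × ((I → Γ) × (I → Γ)) => (t.1, t.2.1)) :=
      continuous_fst.prodMk (continuous_fst.comp continuous_snd)
    have c2 : Continuous (fun t : (I → Y) × ((I → Γ) × (I → Γ)) => (t.1, t.2.2)) :=
      continuous_fst.prodMk (continuous_snd.comp continuous_snd)
    have hG : IsOpen G :=
      (hU₀.preimage c1).inter ((hU₀.preimage c2).inter
        ((hN.preimage (continuous_act.comp c1)).inter (hN'.preimage (continuous_act.comp c2))))
    have hxu : x ∈ u₁ := by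
      apply huu
      intro i hi
      have : i ∈ I₁ ∪ J₁ := Finset.mem_union_left _ hi
      simp only [x, this, if_true]
      exact hpU' i hi
    have hGne : G.Nonempty := by
      refine ⟨(x, (γ, γ₂)), huv ⟨hxu, ?_⟩, huv ⟨hxu, ?_⟩, ?_, ?_⟩
      · apply hvv
        intro i hi
        have : i ∈ I₁ ∪ J₁ := Finset.mem_union_right _ hi
        simp only [γ, this, if_true]
        exact (hv i hi).2
      · apply hvv
        intro i hi
        have : i ∈ I₁ ∪ J₁ := Finset.mem_union_right _ hi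
        simp only [γ₂, this, if_true]
        exact (hv i hi).2
      · apply hbN
        intro i hi
        by_cases h : i ∈ I₁ ∪ J₁
        · simp only [act, γ, x, h, if_true, smul_inv_smul]
          exact (hb i hi).2
        · simp only [act, γ, x, h, if_false, one_smul]
          have := hyM i
          have hi' : i ∈ B₁ := hi
          simpa [M, hi'] using this
      · apply hbN'
        intro i hi
        by_cases h : i ∈ I₁ ∪ J₁
        · simp only [act, γ₂, x, h, if_true, smul_inv_smul]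
          rw [hpq i h]
          exact (hb' i hi).2
        · simp only [act, γ₂, x, h, if_false]
          have := hyM' i
          have hi' : i ∈ B₂ := hi
          simpa [M', hi'] using this
    have o1 : IsOpenMap (fun t : (I → Y) × ((I → Γ) × (I → Γ)) => (t.1, t.2.1)) :=
      IsOpenMap.prodMap IsOpenMap.id isOpenMap_fst
    have o2 : IsOpenMap (fun t : (I → Y) × ((I → Γ) × (I → Γ)) => (t.1, t.2.2)) :=
      IsOpenMap.prodMap IsOpenMap.id isOpenMap_snd
    have t1 := tendsto_residual_of_isOpenMap c1 o1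
    have t2 := tendsto_residual_of_isOpenMap c2 o2
    have g1 := t1.eventually hgen
    have g2 := t2.eventually hgen
    have g3 := (tendsto_act.comp t1).eventually hC
    have g4 := (tendsto_act.comp t2).eventually hC
    obtain ⟨t, ⟨ht1, ht2, ht3, ht4⟩, h1, h2, h3, h4⟩ :=
      exists_mem_open hG hGne (g1.and (g2.and (g3.and g4)))
    have e1 : f (act t.2.1 t.1) = ψ n t.1 := h1 ht1
    have e2 : f (act t.2.2 t.1) = ψ n t.1 := h2 ht2
    have m1 : f (act t.2.1 t.1) ∈ O := hNO _ ht3 h3
    have m2 : f (act t.2.2 t.1) ∈ O' := hNO' _ ht4 h4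
    rw [e1] at m1
    rw [e2] at m2
    exact Set.disjoint_left.1 hdis m1 m2

end Local

end Pool.Agent.V5helper72.Jump
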