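import Pool.Agent.V5helper72.Jump.Trivialize

/-!
# The correspondence subgroup of a trivialised homomorphism
-/

open Set Filter Topology

namespace Pool.Agent.V5helper72.Jump

section Corr

variable {D X L L' D' Z : Type*} [TopologicalSpace X] [Group L] [MulAction L D]
  [Group L'] [MulAction L' D']

/-- Pairs `(w, k)` such that generically `f (w x)` and `k (f x)` are coordinatewise `F`-related. -/
def corr {F : Z → Z → Prop} (hF : Equivalence F) (f : (D → X) → (D' → Z)) :
    Subgroup (L × L') where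
  carrier := {wk | ∀ᶠ x in residual (D → X), ∀ d, F (sh wk.2 (f x) d) (f (sh wk.1 x) d)}
  mul_mem' := by
    rintro ⟨w, k⟩ ⟨w', k'⟩ h h'
    have h1 := (tendsto_sh (X := X) w').eventually h
    show ∀ᶠ x in residual (D → X), ∀ d, F (sh (k * k') (f x) d) (f (sh (w * w') x) d)
    filter_upwards [h1, h'] with x hx hx' d
    simp only [sh_mul]
    exact hF.trans (hx' (k⁻¹ • d)) (hx d)
  one_mem' := by
    show ∀ᶠ x in residual (D → X), ∀ d, F (sh (1 : L') (f x) d) (f (sh (1 : L) x) d)
    refine Eventually.of_forall fun x d => ?_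
    simp only [sh_one]
    exact hF.refl _
  inv_mem' := by
    rintro ⟨w, k⟩ h
    have h1 := (tendsto_sh (X := X) w⁻¹).eventually h
    show ∀ᶠ x in residual (D → X), ∀ d, F (sh k⁻¹ (f x) d) (f (sh w⁻¹ x) d)
    filter_upwards [h1] with x hx d
    have h2 := hx (k • d)
    simp only [← sh_mul, mul_inv_cancel, sh_one] at h2
    have h3 : sh k⁻¹ (f x) d = f x (k • d) := by simp [sh]
    have h4 : sh k (f (sh w⁻¹ x)) (k • d) = f (sh w⁻¹ x) d := by simp [sh]
    rw [h3]
    rw [h4] at h2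
    exact hF.symm h2

theorem mem_corr {F : Z → Z → Prop} (hF : Equivalence F) (f : (D → X) → (D' → Z)) (w : L)
    (k : L') : (w, k) ∈ corr hF f ↔
      ∀ᶠ x in residual (D → X), ∀ d, F (sh k (f x) d) (f (sh w x) d) := Iff.rfl

/-- If `w` corresponds to an element fixing `j`, then `f · j` generically depends, up to `F`, only
on the coordinates which are not moved off by the powers of `w`. -/
theorem corr_mixing [Countable D] [PolishSpace X] [MeasurableSpace X] [BorelSpace X]
    [MeasurableSpace Z] {F : Z → Z → Prop} (hF : Equivalence F)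
    (hFm : MeasurableSet {q : Z × Z | F q.1 q.2})
    {f : (D → X) → (D' → Z)} {j : D'} (hfj : Measurable fun x => f x j)
    (hdep : ∃ C ∈ residual (D → X), LocDep C (fun x => f x j))
    {w : L} {k : L'} (hwk : (w, k) ∈ corr hF f) (hk : k • j = j)
    (D₀ : Set D) (hD₀ : ∀ i ∈ D₀, w • i = i)
    (hmove : ∀ B : Finset D, ∃ n : ℕ, ∀ i ∈ B, i ∉ D₀ → w ^ n • i ∉ B) :
    ∀ᶠ q : (D → X) × (D → X) in residual _, F (f q.1 j) (f (mergeS D₀ q.1 q.2) j) := by
  obtain ⟨C, hC, hdep⟩ := hdep
  have h1 := mixing (h := fun x => f x j) hFm hC hfj hdep D₀ isOpen_univ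
    (fun _ _ _ _ => trivial) (by
      intro B
      obtain ⟨n, hn⟩ := hmove B
      have hfix : ∀ (m : ℕ) (i : D), i ∈ D₀ → w ^ m • i = i := by
        intro m i hi
        induction m with
        | zero => simp
        | succ m ih => rw [pow_succ, mul_smul, hD₀ i hi, ih]
      have hkfix : ∀ m : ℕ, (k ^ m)⁻¹ • j = j := by
        intro m
        rw [inv_smul_eq_iff]
        induction m with
        | zero => simp
        | succ m ih => rw [pow_succ, mul_smul, hk]; exact ih
      refine ⟨MulAction.toPerm ((w ^ n)⁻¹), ?_, ?_, ?_⟩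
      · intro i hi
        show (w ^ n)⁻¹ • i = i
        rw [inv_smul_eq_iff, hfix n i hi]
      · intro i hi hi0 hmem
        have h2 : (w ^ n)⁻¹ • i ∈ B := hmem
        have h3 : (w ^ n)⁻¹ • i ∉ D₀ := by
          intro h
          have := hfix n _ h
          rw [smul_inv_smul] at this
          rw [← this] at h
          exact hi0 h
        have h4 := hn _ h2 h3
        rw [smul_inv_smul] at h4
        exact h4 hi
      · have h2 : (w ^ n, k ^ n) ∈ corr hF f := by
          have := (corr hF f).pow_mem hwk n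
          simpa using this
        filter_upwards [(mem_corr hF f _ _).1 h2] with x hx _
        have h3 := hx j
        have h4 : sh (k ^ n) (f x) j = f x j := by
          show f x ((k ^ n)⁻¹ • j) = f x j
          rw [hkfix n]
        rw [h4] at h3
        exact h3)
  filter_upwards [h1] with q hq
  exact hq trivial

end Corr

section Wreath

variable (H G : Type*) [Group H] [Group G]

/-- The group of permutations of `H × G` generated by the coordinatewise action of `G^H` and the
translations by `H`: the wreath product. -/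
def Wr : Subgroup (Equiv.Perm (H × G)) where
  carrier := {σ | ∃ (h₀ : H) (c : H → G), ∀ h g, σ (h, g) = (h₀ * h, c h * g)}
  mul_mem' := by
    rintro σ τ ⟨h₀, c, hσ⟩ ⟨t₀, c', hτ⟩
    refine ⟨h₀ * t₀, fun h => c (t₀ * h) * c' h, fun h g => ?_⟩
    rw [Equiv.Perm.mul_apply, hτ, hσ, mul_assoc, mul_assoc]
  one_mem' := ⟨1, fun _ => 1, fun h g => by simp⟩
  inv_mem' := by
    rintro σ ⟨h₀, c, hσ⟩
    refine ⟨h₀⁻¹, fun h => (c (h₀⁻¹ * h))⁻¹, fun h g => ?_⟩
    rw [Equiv.Perm.inv_eq_iff_eq, hσ]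
    simp

variable {H G}

/-- The permutation of `H × G` with data `h₀`, `c`. -/
def wrPerm (h₀ : H) (c : H → G) : Equiv.Perm (H × G) where
  toFun d := (h₀ * d.1, c d.1 * d.2)
  invFun d := (h₀⁻¹ * d.1, (c (h₀⁻¹ * d.1))⁻¹ * d.2)
  left_inv d := by simp
  right_inv d := by simp

theorem wrPerm_mem (h₀ : H) (c : H → G) : wrPerm h₀ c ∈ Wr H G := ⟨h₀, c, fun _ _ => rfl⟩

/-- The element of the wreath product with data `h₀`, `c`. -/
def wr (h₀ : H) (c : H → G) : Wr H G := ⟨wrPerm h₀ c, wrPerm_mem h₀ c⟩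

theorem wr_smul (h₀ : H) (c : H → G) (h : H) (g : G) :
    wr h₀ c • (h, g) = (h₀ * h, c h * g) := rfl

theorem exists_wr (v : Wr H G) : ∃ (h₀ : H) (c : H → G), v = wr h₀ c := by
  obtain ⟨σ, h₀, c, hσ⟩ := v
  refine ⟨h₀, c, ?_⟩
  apply Subtype.ext
  apply Equiv.ext
  rintro ⟨h, g⟩
  exact hσ h g

theorem wr_mul (h₀ t₀ : H) (c c' : H → G) :
    wr h₀ c * wr t₀ c' = wr (h₀ * t₀) (fun h => c (t₀ * h) * c' h) := by
  apply Subtype.ext
  apply Equiv.ext
  rintro ⟨h, g⟩
  show (h₀ * (t₀ * h), c (t₀ * h) * (c' h * g)) = (h₀ * t₀ * h, c (t₀ * h) * c' h * g)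
  rw [mul_assoc, mul_assoc]

instance countable_Wr [Finite H] [Countable H] [Countable G] : Countable (Wr H G) := by
  have : Function.Surjective (fun p : H × (H → G) => wr p.1 p.2) := by
    intro v
    obtain ⟨h₀, c, rfl⟩ := exists_wr v
    exact ⟨(h₀, c), rfl⟩
  exact this.countable

theorem jump_iff_RL {X : Type*} {E : X → X → Prop} (p q : H × G → X) :
    Jump H (Jump G E) (fun h g => p (h, g)) (fun h g => q (h, g)) ↔ RL (Wr H G) E p q := by
  constructor
  · rintro ⟨h₀, hh⟩
    choose c hc using hh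
    refine ⟨wr h₀ (fun h => c (h₀ * h)), ?_⟩
    rintro ⟨h, g⟩
    have h1 : (wr h₀ (fun h => c (h₀ * h)))⁻¹ • (h, g) = (h₀⁻¹ * h, (c h)⁻¹ * g) := by
      rw [inv_smul_eq_iff, wr_smul]
      simp
    rw [h1]
    exact hc h g
  · rintro ⟨l, hl⟩
    obtain ⟨h₀, c, rfl⟩ := exists_wr l
    refine ⟨h₀, fun h => ⟨c (h₀⁻¹ * h), fun g => ?_⟩⟩
    have h1 : (wr h₀ c)⁻¹ • (h, g) = (h₀⁻¹ * h, (c (h₀⁻¹ * h))⁻¹ * g) := by
      rw [inv_smul_eq_iff, wr_smul]
      simp
    have h2 := hl (h, g)
    rw [h1] at h2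
    exact h2

end Wreath

end Pool.Agent.V5helper72.Jump
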