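import Mathlib

/-!
# Jumps of equivalence relations and Borel reducibility: definitions
-/

namespace Pool.Agent.V5helper72.Jump

/-- The `G`-jump of the relation `E`, on `G → X`. -/
def Jump (G : Type*) [Group G] {X : Type*} (E : X → X → Prop) (α β : G → X) : Prop :=
  ∃ g : G, ∀ h : G, E (α (g⁻¹ * h)) (β h)

/-- `E` is Borel reducible to `F`. -/
def BorelReducible {X Y : Type*} [TopologicalSpace X] [TopologicalSpace Y]
    (E : X → X → Prop) (F : Y → Y → Prop) : Prop :=
  ∃ f : X → Y, @Measurable X Y (borel X) (borel Y) f ∧ ∀ x x', E x x' ↔ F (f x) (f x')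

end Pool.Agent.V5helper72.Jump
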