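import Pool.Agent.V5helper72.Jump.Basic
import Pool.Agent.V5helper72.Jump.Defs

/-!
# The double jump of a smooth equivalence relation
-/

open Set Filter Topology

namespace Pool.Agent.V5helper72.Jump

section Merge

variable {I Y : Type*}

open Classical in
/-- `p` on `A`, `y` off `A`. -/
noncomputable def merge (A : Finset I) (p y : I → Y) : I → Y := fun i => if i ∈ A then p i else y i

theorem merge_of_mem {A : Finset I} {p y : I → Y} {i : I} (h : i ∈ A) : merge A p y i = p i := by
  simp [merge, h]

theorem merge_of_notMem {A : Finset I} {p y : I → Y} {i : I} (h : i ∉ A) :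
    merge A p y i = y i := by
  simp [merge, h]

variable [TopologicalSpace Y]

theorem continuous_merge (A : Finset I) :
    Continuous (fun q : (I → Y) × (I → Y) => merge A q.1 q.2) := by
  apply continuous_pi
  intro i
  by_cases h : i ∈ A
  · simp only [merge_of_mem h]
    exact (continuous_apply i).comp continuous_fst
  · simp only [merge_of_notMem h]
    exact (continuous_apply i).comp continuous_snd

/-- The involution of `(I → Y)²` behind `merge`. -/
noncomputable def mergeHomeo (A : Finset I) : ((I → Y) × (I → Y)) ≃ₜ ((I → Y) × (I → Y)) where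
  toFun q := (merge A q.1 q.2, merge A q.2 q.1)
  invFun q := (merge A q.1 q.2, merge A q.2 q.1)
  left_inv q := by
    ext i <;> by_cases h : i ∈ A <;> simp [merge, h]
  right_inv q := by
    ext i <;> by_cases h : i ∈ A <;> simp [merge, h]
  continuous_toFun := (continuous_merge A).prodMk ((continuous_merge A).comp continuous_swap)
  continuous_invFun := (continuous_merge A).prodMk ((continuous_merge A).comp continuous_swap)

theorem tendsto_merge (A : Finset I) :
    Tendsto (fun q : (I → Y) × (I → Y) => merge A q.1 q.2) (residual _) (residual _) := by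
  apply tendsto_residual_of_isOpenMap (continuous_merge A)
  have : (fun q : (I → Y) × (I → Y) => merge A q.1 q.2) = Prod.fst ∘ (mergeHomeo (Y := Y) A) := rfl
  rw [this]
  exact isOpenMap_fst.comp (Homeomorph.isOpenMap _)

end Merge

section Shift

variable {G X : Type*} [Group G]

/-- The shift action of `G` on `G → X`. -/
@[reducible] def shiftAction (G X : Type*) [Group G] : MulAction G (G → X) where
  smul g a := fun h => a (g⁻¹ * h)
  one_smul a := by
    funext h
    show a (1⁻¹ * h) = a h
    simp
  mul_smul g g' a := by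
    funext h
    show a ((g * g')⁻¹ * h) = a (g'⁻¹ * (g⁻¹ * h))
    simp [mul_assoc]

variable [TopologicalSpace X]

theorem shift_transitive [Infinite G] (N N' : Set (G → X)) (hN : IsOpen N) (hN' : IsOpen N')
    (hne : N.Nonempty) (hne' : N'.Nonempty) :
    ∃ δ : G, ∃ y ∈ N, (fun h => y (δ⁻¹ * h)) ∈ N' := by
  classical
  obtain ⟨a, ha⟩ := hne
  obtain ⟨b, hb⟩ := hne'
  obtain ⟨B₁, u, hu, huN⟩ := isOpen_pi_iff.1 hN a ha
  obtain ⟨B₂, v, hv, hvN⟩ := isOpen_pi_iff.1 hN' b hb
  obtain ⟨δ, hδ⟩ := Infinite.exists_notMem_finset (Finset.image₂ (fun x y : G => x * y⁻¹) B₂ B₁)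
  refine ⟨δ, fun h => if h ∈ B₁ then a h else b (δ * h), huN ?_, hvN ?_⟩
  · intro i hi
    have hi' : i ∈ B₁ := hi
    simp only [hi', if_true]
    exact (hu i hi).2
  · intro i hi
    have h1 : δ⁻¹ * i ∉ B₁ := by
      intro h
      apply hδ
      rw [Finset.mem_image₂]
      exact ⟨i, hi, δ⁻¹ * i, h, by group⟩
    simp only [h1, if_false, mul_inv_cancel_left]
    exact (hv i hi).2

end Shift

section Generic

/-- Generic pairs of sequences differ, even after a shift. -/
theorem generic_shift_ne {G : Type*} [Group G] [Infinite G] (g : G) :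
    ∀ᶠ q : (G → Bool) × (G → Bool) in residual _, ∃ h : G, q.1 (g⁻¹ * h) ≠ q.2 h := by
  classical
  refine residual_of_dense_open (s := {q : (G → Bool) × (G → Bool) | ∃ h : G, q.1 (g⁻¹ * h) ≠ q.2 h})
    ?_ ?_
  · have : {q : (G → Bool) × (G → Bool) | ∃ h : G, q.1 (g⁻¹ * h) ≠ q.2 h} =
        ⋃ h : G, {q | q.1 (g⁻¹ * h) ≠ q.2 h} := by
      ext q; simp
    rw [this]
    refine isOpen_iUnion fun h => ?_
    exact isOpen_ne_fun ((continuous_apply _).comp continuous_fst)
      ((continuous_apply _).comp continuous_snd)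
  · intro q
    have ht : Tendsto (fun h : G => (q.1, Function.update q.2 h (!(q.1 (g⁻¹ * h))))) cofinite
        (𝓝 (q.1, q.2)) := by
      refine Tendsto.prodMk_nhds tendsto_const_nhds ?_
      rw [tendsto_pi_nhds]
      intro i
      apply tendsto_const_nhds.congr'
      have : ∀ᶠ h in (cofinite : Filter G), h ≠ i := by
        simp
      filter_upwards [this] with h hh
      rw [Function.update_of_ne hh.symm]
    refine mem_closure_of_tendsto ht (Eventually.of_forall fun h => ?_)
    refine ⟨h, ?_⟩
    simp

/-- For generic `(p, y)`, `p` and `merge A p y` are inequivalent for the double jump. -/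
theorem generic_not_equiv {G H : Type*} [Group G] [Infinite G] [Countable G] [Group H] [Infinite H]
    [Countable H] (A : Finset H) :
    ∀ᶠ q : (H → G → Bool) × (H → G → Bool) in residual _,
      ¬ Jump H (Jump G (fun a b : Bool => a = b)) q.1 (merge A q.1 q.2) := by
  obtain ⟨h, hh⟩ := Infinite.exists_notMem_finset A
  have key : ∀ᶠ q : (H → G → Bool) × (H → G → Bool) in residual _,
      ∀ (h₀ : H) (g : G), ∃ g' : G, q.1 (h₀⁻¹ * h) (g⁻¹ * g') ≠ q.2 h g' := by
    rw [eventually_countable_forall]
    intro h₀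
    rw [eventually_countable_forall]
    intro g
    have hc : Continuous (fun q : (H → G → Bool) × (H → G → Bool) => (q.1 (h₀⁻¹ * h), q.2 h)) :=
      ((continuous_apply _).comp continuous_fst).prodMk ((continuous_apply _).comp continuous_snd)
    have ho : IsOpenMap (fun q : (H → G → Bool) × (H → G → Bool) => (q.1 (h₀⁻¹ * h), q.2 h)) :=
      IsOpenMap.prodMap (isOpenMap_eval _) (isOpenMap_eval _)
    exact (tendsto_residual_of_isOpenMap hc ho).eventually (generic_shift_ne g)
  filter_upwards [key] with q hq hJ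
  obtain ⟨h₀, hJ⟩ := hJ
  obtain ⟨g, hg⟩ := hJ h
  obtain ⟨g', hg'⟩ := hq h₀ g
  apply hg'
  have := hg g'
  rwa [merge_of_notMem hh] at this

end Generic

theorem polish_pi (I Y : Type*) [Countable I] [TopologicalSpace Y] [PolishSpace Y] :
    PolishSpace (I → Y) := {}

/-- The core of the smooth case. -/
theorem smooth_core {G H K Y : Type*} [Group G] [Infinite G] [Countable G] [Group H] [Infinite H]
    [Countable H] [Group K] [Countable K] [TopologicalSpace Y] [PolishSpace Y]
    [MeasurableSpace Y] [BorelSpace Y] (f : (H → G → Bool) → (K → Y)) (hf : Measurable f)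
    (hred : ∀ x y, Jump H (Jump G (fun a b : Bool => a = b)) x y ↔
      Jump K (fun a b : Y => a = b) (f x) (f y)) : False := by
  classical
  have hpol : PolishSpace (G → Bool) := polish_pi G Bool
  have hpolZ : PolishSpace (K → Y) := polish_pi K Y
  let _ : MulAction G (G → Bool) := shiftAction G Bool
  have hsmul : ∀ (g : G) (a : G → Bool), g • a = fun h => a (g⁻¹ * h) := fun _ _ => rfl
  let _ : TopologicalSpace G := ⊥
  have _ : DiscreteTopology G := ⟨rfl⟩
  have _ : ContinuousConstSMul G (G → Bool) := by
    refine ⟨fun g => ?_⟩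
    apply continuous_pi
    intro h
    exact continuous_apply (g⁻¹ * h)
  obtain ⟨C, hC, hcont⟩ := exists_residual_continuity hf
  let ψ : K → (H → G → Bool) → (K → Y) := fun k x => fun j => f x (k⁻¹ * j)
  have hψ : ∀ k, Measurable (ψ k) := by
    intro k
    apply measurable_pi_lambda
    intro j
    exact (measurable_pi_apply (k⁻¹ * j)).comp hf
  have hcov : ∀ (x : H → G → Bool) (γ : H → G), ∃ k, f (act γ x) = ψ k x := by
    intro x γ
    have h1 : Jump H (Jump G (fun a b : Bool => a = b)) x (act γ x) := by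
      refine ⟨1, fun h => ⟨γ h, fun g' => ?_⟩⟩
      simp [act, hsmul]
    obtain ⟨k, hk⟩ := (hred _ _).1 h1
    refine ⟨k, ?_⟩
    funext j
    exact (hk j).symm
  have htr : ∀ N N' : Set (G → Bool), IsOpen N → IsOpen N' → N.Nonempty → N'.Nonempty →
      ∃ δ : G, ∃ y ∈ N, δ • y ∈ N' := by
    intro N N' h1 h2 h3 h4
    exact shift_transitive N N' h1 h2 h3 h4
  obtain ⟨A, U, hU, hUne, -, -, hdep⟩ :=
    local_dep (W := univ) htr hf hψ hcov hC hcont isOpen_univ univ_nonempty
  have hV : IsOpen {q : (H → G → Bool) × (H → G → Bool) | q.1 ∈ U} := hU.preimage continuous_fst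
  have hVne : {q : (H → G → Bool) × (H → G → Bool) | q.1 ∈ U}.Nonempty := by
    obtain ⟨p, hp⟩ := hUne
    exact ⟨(p, p), hp⟩
  have e1 : ∀ᶠ q : (H → G → Bool) × (H → G → Bool) in residual _, q.1 ∈ C :=
    (tendsto_residual_of_isOpenMap continuous_fst isOpenMap_fst).eventually hC
  have e2 : ∀ᶠ q : (H → G → Bool) × (H → G → Bool) in residual _, merge A q.1 q.2 ∈ C :=
    (tendsto_merge A).eventually hC
  obtain ⟨q, hqU, h1, h2, h3⟩ := exists_mem_open hV hVne (e1.and (e2.and (generic_not_equiv A)))
  apply h3
  rw [hred]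
  have : f q.1 = f (merge A q.1 q.2) :=
    hdep _ h1 _ h2 hqU (fun i hi => (merge_of_mem hi).symm)
  refine ⟨1, fun j => ?_⟩
  rw [← this]
  simp

end Pool.Agent.V5helper72.Jump
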