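import Pool.Agent.V5helper72.Jump.Mixing2
import Pool.Agent.V5helper72.Jump.Smooth

/-!
# The double jump of a non-smooth relation against single jumps of countable relations
-/

open Set Filter Topology

namespace Pool.Agent.V5helper72.Jump

section

variable {X Δ : Type*} [TopologicalSpace X] [PolishSpace X] [MeasurableSpace X] [BorelSpace X]
  [Group Δ] [Countable Δ] [TopologicalSpace Δ] [DiscreteTopology Δ] [MulAction Δ X]
  [ContinuousConstSMul Δ X]
  {Z : Type*} [TopologicalSpace Z] [T2Space Z] [SecondCountableTopology Z] [MeasurableSpace Z]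
  [BorelSpace Z]

theorem exists_locDep {D : Type*} [Countable D]
    (htr : ∀ N N' : Set X, IsOpen N → IsOpen N' → N.Nonempty → N'.Nonempty →
      ∃ δ : Δ, ∃ y ∈ N, δ • y ∈ N')
    {ι : Type*} [Countable ι] {h : (D → X) → Z} (hh : Measurable h)
    {ψ : ι → (D → X) → Z} (hψ : ∀ n, Measurable (ψ n))
    (hcov : ∀ (x : D → X) (γ : D → Δ), ∃ n, h (act γ x) = ψ n x) :
    ∃ C ∈ residual (D → X), LocDep C h := by
  obtain ⟨C, hC, hcont⟩ := exists_residual_continuity hh
  exact ⟨C, hC, fun W hW hWne => local_dep htr hh hψ hcov hC hcont hW hWne⟩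

omit [TopologicalSpace Z] [T2Space Z] [SecondCountableTopology Z] [BorelSpace Z] in
theorem measurableSet_of_graphs [MeasurableEq Z] {F : Z → Z → Prop} {φ : ℕ → Z → Z}
    (hφ : ∀ n, Measurable (φ n)) (hF : ∀ z z', F z z' ↔ ∃ n, φ n z = z') :
    MeasurableSet {q : Z × Z | F q.1 q.2} := by
  have : {q : Z × Z | F q.1 q.2} = ⋃ n, {q : Z × Z | φ n q.1 = q.2} := by
    ext q; simp [hF]
  rw [this]
  exact MeasurableSet.iUnion fun n =>
    measurableSet_eq_fun ((hφ n).comp measurable_fst) measurable_snd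

omit [TopologicalSpace Z] [T2Space Z] [SecondCountableTopology Z] [BorelSpace Z] in
theorem measurableSet_pow {F : Z → Z → Prop} (hF : MeasurableSet {q : Z × Z | F q.1 q.2})
    (K : Type*) [Countable K] :
    MeasurableSet {q : (K → Z) × (K → Z) | ∀ j, F (q.1 j) (q.2 j)} := by
  have : {q : (K → Z) × (K → Z) | ∀ j, F (q.1 j) (q.2 j)} =
      ⋂ j, {q : (K → Z) × (K → Z) | F (q.1 j) (q.2 j)} := by
    ext q; simp
  rw [this]
  refine MeasurableSet.iInter fun j => ?_
  have h1 : Measurable (fun q : (K → Z) × (K → Z) => (q.1 j, q.2 j)) :=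
    ((measurable_pi_apply j).comp measurable_fst).prodMk
      ((measurable_pi_apply j).comp measurable_snd)
  exact h1 hF

/-- The core of the countable case: a double jump of a relation containing a generically
ergodic orbit relation and having meagre classes does not reduce to a single jump of a
countable Borel relation. -/
theorem countable_core [Nonempty X] {G H K : Type*} [Group G] [Infinite G] [Countable G] [Group H] [Infinite H]
    [Countable H] [Group K] [Countable K]
    (htr : ∀ N N' : Set X, IsOpen N → IsOpen N' → N.Nonempty → N'.Nonempty →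
      ∃ δ : Δ, ∃ y ∈ N, δ • y ∈ N')
    {E : X → X → Prop} (hEΔ : ∀ (δ : Δ) (x : X), E x (δ • x))
    (hEm : ∀ᶠ q : X × X in residual _, ¬ E q.1 q.2)
    {F : Z → Z → Prop} (hsymm : ∀ a b, F a b → F b a) (htrans : ∀ a b c, F a b → F b c → F a c)
    {φ : ℕ → Z → Z} (hφ : ∀ n, Measurable (φ n)) (hF : ∀ z z', F z z' ↔ ∃ n, φ n z = z')
    (f : (H → G → X) → (K → Z)) (hf : Measurable f)
    (hred : ∀ x y, Jump H (Jump G E) x y ↔ Jump K F (f x) (f y)) : False := by
  classical
  have hpolG : PolishSpace (G → X) := polish_pi G X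
  have hEr : ∀ x, E x x := fun x => by simpa using hEΔ 1 x
  let F' : (K → Z) → (K → Z) → Prop := fun z z' => ∀ j, F (z j) (z' j)
  have hF's : ∀ a b, F' a b → F' b a := fun a b h j => hsymm _ _ (h j)
  have hF't : ∀ a b c, F' a b → F' b c → F' a c := fun a b c h h' j => htrans _ _ _ (h j) (h' j)
  have hFm : MeasurableSet {q : Z × Z | F q.1 q.2} := measurableSet_of_graphs hφ hF
  have hF'm : MeasurableSet {q : (K → Z) × (K → Z) | F' q.1 q.2} := measurableSet_pow hFm K
  -- curried version
  let cur : ((H × G) → X) ≃ₜ (H → G → X) := Homeomorph.piCurry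
  have hcur : ∀ p h g, cur p h g = p (h, g) := fun _ _ _ => rfl
  let f₂ : ((H × G) → X) → (K → Z) := fun p => f (cur p)
  have hf₂ : Measurable f₂ := hf.comp cur.continuous.measurable
  have hf₂k : ∀ k, Measurable (fun p => f₂ p k) := fun k => (measurable_pi_apply k).comp hf₂
  -- local dependence of each coordinate
  have hdep : ∀ k : K, ∃ C ∈ residual ((H × G) → X), LocDep C (fun p => f₂ p k) := by
    intro k
    refine exists_locDep (ι := ℕ × K) htr (hf₂k k)
      (ψ := fun n p => φ n.1 (f₂ p (n.2⁻¹ * k))) ?_ ?_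
    · intro n
      exact (hφ n.1).comp (hf₂k _)
    · intro x γ
      have h1 : Jump H (Jump G E) (cur x) (cur (act γ x)) := by
        refine ⟨1, fun h => ⟨1, fun g => ?_⟩⟩
        simp only [hcur, act, inv_one, one_mul]
        exact hEΔ _ _
      obtain ⟨k', hk'⟩ := (hred _ _).1 h1
      obtain ⟨n, hn⟩ := (hF _ _).1 (hk' k)
      exact ⟨(n, k'), hn.symm⟩
  choose C hC hCdep using hdep
  -- local invariance under the groups `G^H`
  let _ : MulAction G (G → X) := shiftAction G X
  have hsmul : ∀ (g : G) (a : G → X), g • a = fun h => a (g⁻¹ * h) := fun _ _ => rfl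
  let _ : TopologicalSpace G := ⊥
  have _ : DiscreteTopology G := ⟨rfl⟩
  have _ : ContinuousConstSMul G (G → X) := by
    refine ⟨fun g => ?_⟩
    apply continuous_pi
    intro h
    exact continuous_apply (g⁻¹ * h)
  obtain ⟨A, U, hU, hUne, -, hUA, hinv⟩ := local_invariance (Γ := G) hF's hF't hF'm
    (τ := fun (k : K) (z : K → Z) => fun j => z (k⁻¹ * j))
    (fun k => measurable_pi_lambda _ fun j => measurable_pi_apply _) hf (by
      intro x γ
      have h1 : Jump H (Jump G E) x (act γ x) := by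
        refine ⟨1, fun h => ⟨γ h, fun g' => ?_⟩⟩
        simp only [act, hsmul, inv_one, one_mul]
        exact hEr _
      obtain ⟨k, hk⟩ := (hred _ _).1 h1
      exact ⟨k, fun j => hsymm _ _ (hk j)⟩) isOpen_univ univ_nonempty
  -- mixing
  let D₀ : Set (H × G) := {d | d.1 ∈ A}
  have hU' : IsOpen (cur ⁻¹' U) := hU.preimage cur.continuous
  have tcur : Tendsto cur (residual _) (residual _) :=
    tendsto_residual_of_isOpenMap cur.continuous cur.isOpenMap
  have hmix : ∀ k : K, ∀ᶠ q : ((H × G) → X) × ((H × G) → X) in residual _,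
      q.1 ∈ cur ⁻¹' U → F (f₂ q.1 k) (f₂ (mergeS D₀ q.1 q.2) k) := by
    intro k
    refine mixing hFm (hC k) (hf₂k k) (hCdep k) D₀ hU' ?_ ?_
    · intro p q hp hpq
      refine hUA _ _ hp (fun h hh => ?_)
      funext g
      exact hpq (h, g) hh
    · intro B
      obtain ⟨g₁, hg₁⟩ := Infinite.exists_notMem_finset
        (Finset.image₂ (fun x y : G => x * y⁻¹) (B.image Prod.snd) (B.image Prod.snd))
      let δ : H → G := fun h => if h ∈ A then 1 else g₁
      let σ : Equiv.Perm (H × G) :=
        { toFun := fun d => (d.1, (δ d.1)⁻¹ * d.2)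
          invFun := fun d => (d.1, δ d.1 * d.2)
          left_inv := fun d => by simp
          right_inv := fun d => by simp }
      refine ⟨σ, ?_, ?_, ?_⟩
      · intro d hd
        have hd' : d.1 ∈ A := hd
        show (d.1, (δ d.1)⁻¹ * d.2) = d
        simp [δ, hd']
      · intro d hd hd0 hσ
        have hd' : d.1 ∉ A := hd0
        have h1 : σ d = (d.1, g₁⁻¹ * d.2) := by
          show (d.1, (δ d.1)⁻¹ * d.2) = _
          simp [δ, hd']
        rw [h1] at hσ
        apply hg₁
        rw [Finset.mem_image₂]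
        refine ⟨d.2, Finset.mem_image_of_mem _ hd, g₁⁻¹ * d.2,
          Finset.mem_image_of_mem Prod.snd hσ, by group⟩
      · have h2 := hinv δ (fun h hh => by simp [δ, hh])
        filter_upwards [tcur.eventually h2] with x hx hxU
        have h3 : act δ (cur x) = cur (fun i => x (σ i)) := rfl
        have h4 := hx hxU k
        rw [h3] at h4
        exact h4
  -- generic inequivalence
  obtain ⟨h, hh⟩ := Infinite.exists_notMem_finset A
  have key : ∀ᶠ q : ((H × G) → X) × ((H × G) → X) in residual _,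
      ∀ (h₀ : H) (g₀ : G), ¬ E (q.1 (h₀⁻¹ * h, g₀⁻¹ * 1)) (q.2 (h, 1)) := by
    rw [eventually_countable_forall]
    intro h₀
    rw [eventually_countable_forall]
    intro g₀
    have hc : Continuous (fun q : ((H × G) → X) × ((H × G) → X) =>
        (q.1 (h₀⁻¹ * h, g₀⁻¹ * 1), q.2 (h, 1))) :=
      ((continuous_apply _).comp continuous_fst).prodMk ((continuous_apply _).comp continuous_snd)
    have ho : IsOpenMap (fun q : ((H × G) → X) × ((H × G) → X) =>
        (q.1 (h₀⁻¹ * h, g₀⁻¹ * 1), q.2 (h, 1))) :=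
      IsOpenMap.prodMap (isOpenMap_eval _) (isOpenMap_eval _)
    exact (tendsto_residual_of_isOpenMap hc ho).eventually hEm
  have hall : ∀ᶠ q : ((H × G) → X) × ((H × G) → X) in residual _, ∀ k : K,
      q.1 ∈ cur ⁻¹' U → F (f₂ q.1 k) (f₂ (mergeS D₀ q.1 q.2) k) := by
    rw [eventually_countable_forall]
    exact hmix
  have hV : IsOpen {q : ((H × G) → X) × ((H × G) → X) | q.1 ∈ cur ⁻¹' U} :=
    hU'.preimage continuous_fst
  have hVne : {q : ((H × G) → X) × ((H × G) → X) | q.1 ∈ cur ⁻¹' U}.Nonempty := by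
    obtain ⟨p, hp⟩ := hUne
    refine ⟨(cur.symm p, cur.symm p), ?_⟩
    show cur (cur.symm p) ∈ U
    simpa using hp
  obtain ⟨q, hq, h1, h2⟩ := exists_mem_open hV hVne (hall.and key)
  have h3 : Jump H (Jump G E) (cur q.1) (cur (mergeS D₀ q.1 q.2)) := by
    rw [hred]
    refine ⟨1, fun j => ?_⟩
    have := h1 j hq
    simpa using this
  obtain ⟨h₀, hh₀⟩ := h3
  obtain ⟨g₀, hg₀⟩ := hh₀ h
  have h4 := hg₀ 1
  apply h2 h₀ g₀
  have h5 : cur (mergeS D₀ q.1 q.2) h 1 = q.2 (h, 1) :=
    mergeS_of_notMem (D₀ := D₀) (i := (h, 1)) hh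
  rw [h5] at h4
  exact h4

end

end Pool.Agent.V5helper72.Jump
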