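import Pool.Agent.V5helper72.Jump.Correspond

/-!
# A finite outer group and `G = ℤ`
-/

open Set Filter Topology

namespace Pool.Agent.V5helper72.Jump

/-- The shift action of `L'` on `D' → Z` when `L'` acts on `D'`. -/
@[reducible] def shAction (L' D' Z : Type*) [Group L'] [MulAction L' D'] :
    MulAction L' (D' → Z) where
  smul k z := sh k z
  one_smul z := sh_one z
  mul_smul k k' z := sh_mul k k' z

section Core

variable {X Δ : Type*} [TopologicalSpace X] [PolishSpace X] [MeasurableSpace X] [BorelSpace X]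
  [Nonempty X] [Group Δ] [Countable Δ] [TopologicalSpace Δ] [DiscreteTopology Δ] [MulAction Δ X]
  [ContinuousConstSMul Δ X]
  {Z : Type*} [TopologicalSpace Z] [T2Space Z] [SecondCountableTopology Z] [MeasurableSpace Z]
  [BorelSpace Z]

/-- Replace a reduction by a trivialised one. -/
theorem package {D L L' D' : Type*} [Countable D] [Countable D'] [Group L] [MulAction L D]
    [Group L'] [Countable L'] [MulAction L' D']
    (htr : ∀ N N' : Set X, IsOpen N → IsOpen N' → N.Nonempty → N'.Nonempty →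
      ∃ δ : Δ, ∃ y ∈ N, δ • y ∈ N')
    {E : X → X → Prop} (hE : Equivalence E) (hEΔ : ∀ (δ : Δ) (x : X), E x (δ • x))
    {F : Z → Z → Prop} (hF : Equivalence F)
    {φ : ℕ → Z → Z} (hφ : ∀ n, Measurable (φ n)) (hFφ : ∀ z z', F z z' ↔ ∃ n, φ n z = z')
    (hL : ∀ A : Finset D, ∃ w : L, ∀ i ∈ A, w • i ∉ A)
    {f : (D → X) → (D' → Z)} (hf : Measurable f)
    (hred : ∀ p q, RL L E p q ↔ RL L' F (f p) (f q)) :
    ∃ f' : (D → X) → (D' → Z), Measurable f' ∧
      (∀ p q, RL L E p q ↔ RL L' F (f' p) (f' q)) ∧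
      (∀ w : L, ∃ k : L', (w, k) ∈ corr hF f') ∧
      (∀ j, ∃ C ∈ residual (D → X), LocDep C (fun x => f' x j)) := by
  let _ : MulAction L' (D' → Z) := shAction L' D' Z
  have hsm : ∀ (k : L') (z : D' → Z), k • z = sh k z := fun _ _ => rfl
  have hFm : MeasurableSet {q : Z × Z | F q.1 q.2} := measurableSet_of_graphs hφ hFφ
  let F' : (D' → Z) → (D' → Z) → Prop := fun z z' => ∀ j, F (z j) (z' j)
  have hF' : Equivalence F' :=
    ⟨fun z j => hF.refl _, fun h j => hF.symm (h j), fun h h' j => hF.trans (h j) (h' j)⟩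
  have hF'm : MeasurableSet {q : (D' → Z) × (D' → Z) | F' q.1 q.2} := measurableSet_pow hFm D'
  obtain ⟨f', hf', hact, -, hw⟩ := trivialize (L := L) (L' := L') htr hE hEΔ hF' hF'm
    (fun k => measurable_pi_lambda _ fun j => measurable_pi_apply _)
    (fun k z z' h j => h _) hL hf (fun p q h => (hred p q).1 h)
  have hred' : ∀ p q, RL L E p q ↔ RL L' F (f' p) (f' q) := by
    intro p q
    obtain ⟨γ, hγ⟩ := hact p
    obtain ⟨γ', hγ'⟩ := hact q
    rw [hγ, hγ', ← hred]
    constructor
    · intro h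
      exact RL_trans hE (RL_symm hE (RL_act L hEΔ γ p)) (RL_trans hE h (RL_act L hEΔ γ' q))
    · intro h
      exact RL_trans hE (RL_act L hEΔ γ p) (RL_trans hE h (RL_symm hE (RL_act L hEΔ γ' q)))
  refine ⟨f', hf', hred', hw, ?_⟩
  intro j
  refine exists_locDep (ι := ℕ × L') htr ((measurable_pi_apply j).comp hf')
    (ψ := fun n x => φ n.1 (f' x (n.2⁻¹ • j))) ?_ ?_
  · intro n
    exact (hφ n.1).comp ((measurable_pi_apply _).comp hf')
  · intro x γ
    obtain ⟨k, hk⟩ := (hred' _ _).1 (RL_act L hEΔ γ x)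
    obtain ⟨n, hn⟩ := (hFφ _ _).1 (hk j)
    exact ⟨(n, k), hn.symm⟩

omit [PolishSpace X] [MeasurableSpace X] [BorelSpace X] [Nonempty X] in
theorem generic_not_RL {D L : Type*} [Countable D] [Group L] [Countable L] [MulAction L D]
    {E : X → X → Prop} (hEm : ∀ᶠ q : X × X in residual _, ¬ E q.1 q.2)
    (D₀ : Set D) {i : D} (hi : i ∉ D₀) :
    ∀ᶠ q : (D → X) × (D → X) in residual _, ¬ RL L E q.1 (mergeS D₀ q.1 q.2) := by
  have key : ∀ᶠ q : (D → X) × (D → X) in residual _, ∀ l : L, ¬ E (q.1 (l⁻¹ • i)) (q.2 i) := by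
    rw [eventually_countable_forall]
    intro l
    have hc : Continuous (fun q : (D → X) × (D → X) => (q.1 (l⁻¹ • i), q.2 i)) :=
      ((continuous_apply _).comp continuous_fst).prodMk ((continuous_apply _).comp continuous_snd)
    have ho : IsOpenMap (fun q : (D → X) × (D → X) => (q.1 (l⁻¹ • i), q.2 i)) :=
      IsOpenMap.prodMap (isOpenMap_eval _) (isOpenMap_eval _)
    exact (tendsto_residual_of_isOpenMap hc ho).eventually hEm
  filter_upwards [key] with q hq hR
  obtain ⟨l, hl⟩ := hR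
  have := hl i
  rw [mergeS_of_notMem hi] at this
  exact hq l this

theorem wr_pow_smul {H G : Type*} [Group H] [Group G] (c : H → G) (n : ℕ) (h : H) (g : G) :
    (wr 1 c) ^ n • (h, g) = (h, (c h) ^ n * g) := by
  induction n with
  | zero => simp
  | succ n ih =>
    rw [pow_succ', mul_smul, ih, wr_smul, one_mul, pow_succ', mul_assoc]

omit [TopologicalSpace Z] [T2Space Z] [SecondCountableTopology Z] [BorelSpace Z] in
/-- A nontrivial element of the base group corresponds only to elements of infinite order. -/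
theorem pow_ne_one_of_corr {H G K : Type*} [Group H] [Group G] [Countable H] [Countable G]
    [Finite H] [Group K] [Countable K] {E : X → X → Prop}
    (hEm : ∀ᶠ q : X × X in residual _, ¬ E q.1 q.2)
    {F : Z → Z → Prop} (hF : Equivalence F) (hFm : MeasurableSet {q : Z × Z | F q.1 q.2})
    {f : (H × G → X) → (K → Z)} (hf : Measurable f)
    (hred : ∀ p q, RL (Wr H G) E p q ↔ RL K F (f p) (f q))
    (hdep : ∀ j, ∃ C ∈ residual (H × G → X), LocDep C (fun x => f x j))
    {c : H → G} (hc : ∃ h, c h ≠ 1) (hcinf : ∀ h, c h ≠ 1 → Function.Injective (fun n : ℕ => c h ^ n))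
    {k : K} (hk : (wr 1 c, k) ∈ corr hF f) {n : ℕ} (hn : 0 < n) : k ^ n ≠ 1 := by
  classical
  intro hkn
  obtain ⟨h₁, hh₁⟩ := hc
  have h1 : ((wr 1 c) ^ n, (1 : K)) ∈ corr hF f := by
    have := (corr hF f).pow_mem hk n
    rw [Prod.pow_mk, hkn] at this
    exact this
  let D₀ : Set (H × G) := {d | c d.1 = 1}
  have hmix : ∀ j : K, ∀ᶠ q : (H × G → X) × (H × G → X) in residual _,
      F (f q.1 j) (f (mergeS D₀ q.1 q.2) j) := by
    intro j
    refine corr_mixing hF hFm ((measurable_pi_apply j).comp hf) (hdep j) h1 (one_smul _ _) D₀ ?_ ?_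
    · rintro ⟨h, g⟩ hd
      have hd' : c h = 1 := hd
      rw [wr_pow_smul, hd']
      simp
    · intro B
      -- the bad exponents
      have hbad : {N : ℕ | ∃ i ∈ B, i ∉ D₀ ∧ ((wr 1 c) ^ n) ^ N • i ∈ B}.Finite := by
        have : {N : ℕ | ∃ i ∈ B, i ∉ D₀ ∧ ((wr 1 c) ^ n) ^ N • i ∈ B} ⊆
            ⋃ i ∈ B, ⋃ i' ∈ B, {N : ℕ | i ∉ D₀ ∧ ((wr 1 c) ^ n) ^ N • i = i'} := by
          rintro N ⟨i, hi, hi0, hN⟩
          simp only [mem_iUnion]
          exact ⟨i, hi, _, hN, hi0, rfl⟩
        refine Set.Finite.subset ?_ this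
        refine Set.Finite.biUnion B.finite_toSet fun i _ => ?_
        refine Set.Finite.biUnion B.finite_toSet fun i' _ => ?_
        apply Set.Subsingleton.finite
        rintro N ⟨hi0, hN⟩ N' ⟨-, hN'⟩
        obtain ⟨h, g⟩ := i
        have hi0' : c h ≠ 1 := hi0
        rw [← hN', ← pow_mul, ← pow_mul, wr_pow_smul, wr_pow_smul, Prod.mk.injEq] at hN
        have h2 := mul_right_cancel hN.2
        have h3 := hcinf h hi0' h2
        exact Nat.eq_of_mul_eq_mul_left hn h3
      obtain ⟨N, hN⟩ := hbad.exists_notMem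
      refine ⟨N, fun i hi hi0 hmem => hN ⟨i, hi, hi0, hmem⟩⟩
  have hi : (h₁, (1 : G)) ∉ D₀ := hh₁
  have hall : ∀ᶠ q : (H × G → X) × (H × G → X) in residual _, ∀ j : K,
      F (f q.1 j) (f (mergeS D₀ q.1 q.2) j) := by
    rw [eventually_countable_forall]
    exact hmix
  have hne : (univ : Set ((H × G → X) × (H × G → X))).Nonempty := univ_nonempty
  obtain ⟨q, -, h3, h4⟩ := exists_mem_open isOpen_univ hne
    (hall.and (generic_not_RL (L := Wr H G) hEm D₀ hi))
  apply h4
  rw [hred]
  refine ⟨1, fun j => ?_⟩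
  rw [inv_one, one_smul]
  exact h3 j

/-- The core of the case of a finite outer group. -/
theorem finite_core {H K : Type*} [Group H] [Finite H] [Nontrivial H] [Group K] [Countable K]
    (htr : ∀ N N' : Set X, IsOpen N → IsOpen N' → N.Nonempty → N'.Nonempty →
      ∃ δ : Δ, ∃ y ∈ N, δ • y ∈ N')
    {E : X → X → Prop} (hE : Equivalence E) (hEΔ : ∀ (δ : Δ) (x : X), E x (δ • x))
    (hEm : ∀ᶠ q : X × X in residual _, ¬ E q.1 q.2)
    {F : Z → Z → Prop} (hF : Equivalence F)
    {φ : ℕ → Z → Z} (hφ : ∀ n, Measurable (φ n)) (hFφ : ∀ z z', F z z' ↔ ∃ n, φ n z = z')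
    (f : (H → Multiplicative ℤ → X) → (K → Z)) (hf : Measurable f)
    (hfr : ∀ x y, Jump H (Jump (Multiplicative ℤ) E) x y ↔ Jump K F (f x) (f y))
    (g : (K → X) → (H → Multiplicative ℤ → Z)) (hg : Measurable g)
    (hgr : ∀ x y, Jump K E x y ↔ Jump H (Jump (Multiplicative ℤ) F) (g x) (g y)) : False := by
  classical
  have hHc : Countable H := Finite.to_countable
  have hFm : MeasurableSet {q : Z × Z | F q.1 q.2} := measurableSet_of_graphs hφ hFφ
  have hpolX : PolishSpace (Multiplicative ℤ → X) := polish_pi _ _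
  -- curried versions
  let cur : ((H × Multiplicative ℤ) → X) ≃ₜ (H → Multiplicative ℤ → X) := Homeomorph.piCurry
  let f₂ : ((H × Multiplicative ℤ) → X) → (K → Z) := fun p => f (cur p)
  have hf₂ : Measurable f₂ := hf.comp cur.continuous.measurable
  have hf₂r : ∀ p q, RL (Wr H (Multiplicative ℤ)) E p q ↔ RL K F (f₂ p) (f₂ q) := by
    intro p q
    rw [← jump_iff_RL]
    exact hfr _ _
  let g₂ : (K → X) → ((H × Multiplicative ℤ) → Z) := fun p d => g p d.1 d.2
  have hg₂ : Measurable g₂ := by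
    apply measurable_pi_lambda
    intro d
    exact (measurable_pi_apply d.2).comp ((measurable_pi_apply d.1).comp hg)
  have hg₂r : ∀ p q, RL K E p q ↔ RL (Wr H (Multiplicative ℤ)) F (g₂ p) (g₂ q) := by
    intro p q
    rw [← jump_iff_RL]
    exact hgr _ _
  -- trivialise `f₂`
  have hL₁ : ∀ A : Finset (H × Multiplicative ℤ), ∃ w : Wr H (Multiplicative ℤ),
      ∀ i ∈ A, w • i ∉ A := by
    intro A
    obtain ⟨g₁, hg₁⟩ := Infinite.exists_notMem_finset
      (Finset.image₂ (fun x y : Multiplicative ℤ => x * y⁻¹) (A.image Prod.snd) (A.image Prod.snd))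
    refine ⟨wr 1 (fun _ => g₁), ?_⟩
    rintro ⟨h, m⟩ hi hmem
    rw [wr_smul, one_mul] at hmem
    apply hg₁
    rw [Finset.mem_image₂]
    exact ⟨g₁ * m, Finset.mem_image_of_mem Prod.snd hmem, m, Finset.mem_image_of_mem Prod.snd hi,
      by group⟩
  obtain ⟨f', hf', hf'r, hfw, hfdep⟩ := package htr hE hEΔ hF hφ hFφ hL₁ hf₂ hf₂r
  have hinj : ∀ z : Multiplicative ℤ, z ≠ 1 → Function.Injective (fun n : ℕ => z ^ n) := by
    intro z hz m m' hmm
    have h3 := congrArg Multiplicative.toAdd hmm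
    simp only [toAdd_pow, nsmul_eq_mul] at h3
    have h4 : Multiplicative.toAdd z ≠ 0 := fun h => hz h
    exact_mod_cast mul_right_cancel₀ h4 h3
  have hinford : ∀ (c : H → Multiplicative ℤ), (∃ h, c h ≠ 1) → ∀ k : K,
      (wr 1 c, k) ∈ corr hF f' → ∀ n : ℕ, 0 < n → k ^ n ≠ 1 := by
    intro c hc k hk n hn
    exact pow_ne_one_of_corr hEm hF hFm hf' hf'r hfdep hc (fun h hh => hinj _ hh) hk hn
  obtain ⟨h₁, h₂, h12⟩ := exists_pair_ne H
  let gen : Multiplicative ℤ := Multiplicative.ofAdd 1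
  let s₁ : H → Multiplicative ℤ := fun t => if t = h₁ then gen else 1
  let s₂ : H → Multiplicative ℤ := fun t => if t = h₂ then gen else 1
  have s11 : s₁ h₁ = gen := by simp [s₁]
  have s12 : s₁ h₂ = 1 := by simp [s₁, h12.symm]
  have s21 : s₂ h₁ = 1 := by simp [s₂, h12]
  have s22 : s₂ h₂ = gen := by simp [s₂]
  obtain ⟨k₁, hk₁⟩ := hfw (wr 1 s₁)
  obtain ⟨k₂, hk₂⟩ := hfw (wr 1 s₂)
  -- `K` is infinite
  have hgen : gen ≠ 1 := by
    intro h
    have : (1 : ℤ) = 0 := congrArg Multiplicative.toAdd h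
    omega
  have hKinf : Infinite K := by
    by_contra hfin
    rw [not_infinite_iff_finite] at hfin
    exact hinford _ ⟨h₁, by rw [s11]; exact hgen⟩ k₁ hk₁ (Nat.card K) Nat.card_pos pow_card_eq_one'
  have hL₂ : ∀ A : Finset K, ∃ w : K, ∀ i ∈ A, w • i ∉ A := by
    intro A
    obtain ⟨g₁, hg₁⟩ := Infinite.exists_notMem_finset
      (Finset.image₂ (fun x y : K => x * y⁻¹) A A)
    refine ⟨g₁, fun i hi hmem => ?_⟩
    apply hg₁
    rw [Finset.mem_image₂]
    exact ⟨g₁ • i, hmem, i, hi, by simp⟩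
  obtain ⟨g', hg', hg'r, hgw, hgdep⟩ := package htr hE hEΔ hF hφ hFφ hL₂ hg₂ hg₂r
  obtain ⟨v₁, hv₁⟩ := hgw k₁
  obtain ⟨v₂, hv₂⟩ := hgw k₂
  set n : ℕ := Nat.card H with hn
  have hn0 : 0 < n := Nat.card_pos
  -- powers of elements of the wreath product lie in the base
  have hbase : ∀ v : Wr H (Multiplicative ℤ), ∃ c : H → Multiplicative ℤ, v ^ n = wr 1 c := by
    intro v
    obtain ⟨t, c, rfl⟩ := exists_wr v
    have : ∀ m : ℕ, ∃ c' : H → Multiplicative ℤ, (wr t c) ^ m = wr (t ^ m) c' := by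
      intro m
      induction m with
      | zero =>
        refine ⟨fun _ => 1, ?_⟩
        apply Subtype.ext
        apply Equiv.ext
        rintro ⟨h, g⟩
        show (h, g) = ((t ^ 0) * h, 1 * g)
        simp
      | succ m ih =>
        obtain ⟨c', hc'⟩ := ih
        refine ⟨fun h => c (t ^ m * h) * c' h, ?_⟩
        rw [pow_succ', hc', wr_mul, pow_succ']
    obtain ⟨c', hc'⟩ := this n
    refine ⟨c', ?_⟩
    rw [hc', hn, pow_card_eq_one']
  obtain ⟨c₁, hc₁⟩ := hbase v₁
  obtain ⟨c₂, hc₂⟩ := hbase v₂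
  have hwrzpow : ∀ (c : H → Multiplicative ℤ) (a : ℤ), (wr 1 c) ^ a = wr 1 (fun h => c h ^ a) := by
    intro c a
    let θ : (H → Multiplicative ℤ) →* Wr H (Multiplicative ℤ) :=
      { toFun := fun c => wr 1 c
        map_one' := by
          apply Subtype.ext
          apply Equiv.ext
          rintro ⟨h, g⟩
          show (1 * h, 1 * g) = (h, g)
          simp
        map_mul' := by
          intro c c'
          rw [wr_mul]
          simp
          rfl }
    have := map_zpow θ c a
    exact this.symm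
  have hwrmul : ∀ (c c' : H → Multiplicative ℤ), wr 1 c * wr 1 c' = wr 1 (fun h => c h * c' h) := by
    intro c c'
    rw [wr_mul]
    simp
  -- every coordinate of `g'` is generically constant
  have hconst : ∀ j : H × Multiplicative ℤ, ∀ᶠ q : (K → X) × (K → X) in residual _,
      F (g' q.1 j) (g' (mergeS ∅ q.1 q.2) j) := by
    rintro ⟨h, m⟩
    -- integer exponents killing the `h`-component
    obtain ⟨a, b, hab, hsum⟩ : ∃ a b : ℤ, (a ≠ 0 ∨ b ≠ 0) ∧ c₁ h ^ a * c₂ h ^ b = 1 := by
      by_cases hz : c₁ h = 1 ∧ c₂ h = 1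
      · exact ⟨1, 0, Or.inl one_ne_zero, by simp [hz.1]⟩
      · refine ⟨Multiplicative.toAdd (c₂ h), -Multiplicative.toAdd (c₁ h), ?_, ?_⟩
        · by_contra hcon
          push Not at hcon
          apply hz
          constructor
          · have h3 : Multiplicative.toAdd (c₁ h) = 0 := by
              have := hcon.2
              omega
            exact h3
          · exact hcon.1
        · apply Multiplicative.toAdd.injective
          rw [toAdd_mul, toAdd_zpow, toAdd_zpow, toAdd_one]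
          simp only [smul_eq_mul]
          ring
    let k : K := (k₁ ^ n) ^ a * (k₂ ^ n) ^ b
    have hkf : (wr 1 (fun t => s₁ t ^ (n * a : ℤ) * s₂ t ^ (n * b : ℤ)), k) ∈ corr hF f' := by
      have e1 := (corr hF f').zpow_mem ((corr hF f').pow_mem hk₁ n) a
      have e2 := (corr hF f').zpow_mem ((corr hF f').pow_mem hk₂ n) b
      have e3 := (corr hF f').mul_mem e1 e2
      rw [← hwrmul, ← hwrzpow, ← hwrzpow]
      rw [zpow_mul, zpow_mul, zpow_natCast, zpow_natCast]
      exact e3
    have hkinf : ∀ N : ℕ, 0 < N → k ^ N ≠ 1 := by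
      apply hinford _ _ k hkf
      have hz : ∀ z : ℤ, z ≠ 0 → gen ^ z ≠ 1 := by
        intro z hz h
        apply hz
        have := congrArg Multiplicative.toAdd h
        rw [toAdd_zpow, toAdd_one] at this
        simpa [gen] using this
      have hn0' : (n : ℤ) ≠ 0 := by exact_mod_cast hn0.ne'
      rcases hab with ha | hb
      · refine ⟨h₁, ?_⟩
        rw [s11, s21, one_zpow, mul_one]
        exact hz _ (mul_ne_zero hn0' ha)
      · refine ⟨h₂, ?_⟩
        rw [s12, s22, one_zpow, one_mul]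
        exact hz _ (mul_ne_zero hn0' hb)
    have hkg : (k, wr 1 (fun t => c₁ t ^ a * c₂ t ^ b)) ∈ corr hF g' := by
      have e1 := (corr hF g').zpow_mem ((corr hF g').pow_mem hv₁ n) a
      have e2 := (corr hF g').zpow_mem ((corr hF g').pow_mem hv₂ n) b
      have e3 := (corr hF g').mul_mem e1 e2
      rw [← hwrmul, ← hwrzpow, ← hwrzpow, ← hc₁, ← hc₂]
      exact e3
    refine corr_mixing hF hFm ((measurable_pi_apply _).comp hg') (hgdep _) hkg ?_ ∅
      (fun i hi => absurd hi (Set.notMem_empty i)) ?_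
    · rw [wr_smul, one_mul, hsum, one_mul]
    · intro B
      have hkinj : Function.Injective (fun N : ℕ => k ^ N) := by
        intro N N' hNN
        by_contra hne
        rcases lt_or_gt_of_ne hne with hlt | hlt
        · have h4 : k ^ (N' - N) = 1 := by
            have h5 : k ^ N * k ^ (N' - N) = k ^ N * 1 := by
              rw [← pow_add, Nat.add_sub_cancel' hlt.le, mul_one]
              exact hNN.symm
            exact mul_left_cancel h5
          exact hkinf _ (Nat.sub_pos_of_lt hlt) h4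
        · have h4 : k ^ (N - N') = 1 := by
            have h5 : k ^ N' * k ^ (N - N') = k ^ N' * 1 := by
              rw [← pow_add, Nat.add_sub_cancel' hlt.le, mul_one]
              exact hNN
            exact mul_left_cancel h5
          exact hkinf _ (Nat.sub_pos_of_lt hlt) h4
      have hbad : {N : ℕ | ∃ i ∈ B, k ^ N • i ∈ B}.Finite := by
        have : {N : ℕ | ∃ i ∈ B, k ^ N • i ∈ B} ⊆
            ⋃ i ∈ B, ⋃ i' ∈ B, {N : ℕ | k ^ N • i = i'} := by
          rintro N ⟨i, hi, hN⟩
          simp only [mem_iUnion]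
          exact ⟨i, hi, _, hN, rfl⟩
        refine Set.Finite.subset ?_ this
        refine Set.Finite.biUnion B.finite_toSet fun i _ => ?_
        refine Set.Finite.biUnion B.finite_toSet fun i' _ => ?_
        apply Set.Subsingleton.finite
        intro N hN N' hN'
        have hN1 : k ^ N * i = i' := hN
        have hN2 : k ^ N' * i = i' := hN'
        rw [← hN2] at hN1
        exact hkinj (mul_right_cancel hN1)
      obtain ⟨N, hN⟩ := hbad.exists_notMem
      exact ⟨N, fun i hi _ hmem => hN ⟨i, hi, hmem⟩⟩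
  have hall : ∀ᶠ q : (K → X) × (K → X) in residual _, ∀ j : H × Multiplicative ℤ,
      F (g' q.1 j) (g' (mergeS ∅ q.1 q.2) j) := by
    rw [eventually_countable_forall]
    exact hconst
  obtain ⟨q, -, h3, h4⟩ := exists_mem_open isOpen_univ
    (univ_nonempty : (univ : Set ((K → X) × (K → X))).Nonempty)
    (hall.and (generic_not_RL (L := K) hEm (∅ : Set K) (Set.notMem_empty (1 : K))))
  apply h4
  rw [hg'r]
  refine ⟨1, fun j => ?_⟩
  rw [inv_one, one_smul]
  exact h3 j

end Core

end Pool.Agent.V5helper72.Jump
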