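import Pool.Agent.V5helper72.Jump.Basic

/-!
# Local invariance and mixing
-/

open Set Filter Topology

namespace Pool.Agent.V5helper72.Jump

section General

variable {P Q : Type*} [TopologicalSpace P] [TopologicalSpace Q]

/-- If a Borel property does not hold generically on an open set, its negation holds generically
on a nonempty open subset. -/
theorem exists_open_of_not_eventually [MeasurableSpace P] [BorelSpace P] {S : Set P}
    (hS : MeasurableSet S) {W : Set P} (hW : IsOpen W)
    (h : ¬ ∀ᶠ p in residual P, p ∈ W → p ∈ S) :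
    ∃ O : Set P, IsOpen O ∧ O.Nonempty ∧ O ⊆ W ∧ ∀ᶠ p in residual P, p ∈ O → p ∉ S := by
  obtain ⟨u, uo, hu⟩ := hS.compl.residualEq_isOpen
  refine ⟨u ∩ W, uo.inter hW, ?_, inter_subset_right, ?_⟩
  · by_contra hne
    rw [not_nonempty_iff_eq_empty] at hne
    apply h
    filter_upwards [hu] with p hp hpW
    by_contra hpS
    have hp' : (p ∈ Sᶜ) = (p ∈ u) := hp
    have h1 : p ∈ u := by rw [← hp']; exact hpS
    have h2 : p ∈ u ∩ W := ⟨h1, hpW⟩
    rw [hne] at h2
    exact h2
  · filter_upwards [hu] with p hp hpO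
    have hp' : (p ∈ Sᶜ) = (p ∈ u) := hp
    have : p ∈ Sᶜ := by rw [hp']; exact hpO.1
    exact this

/-- Half of Kuratowski-Ulam for cylinders. -/
theorem eventually_of_prod [BaireSpace (P × Q)] [MeasurableSpace P] [BorelSpace P] {S : Set P}
    (hS : MeasurableSet S) {O : Set P} (hO : IsOpen O) {O' : Set Q} (hO' : IsOpen O')
    (hne : O'.Nonempty)
    (h : ∀ᶠ q : P × Q in residual _, q.1 ∈ O → q.2 ∈ O' → q.1 ∈ S) :
    ∀ᶠ p in residual P, p ∈ O → p ∈ S := by
  by_contra hcon
  obtain ⟨O₁, hO₁, hne₁, hsub, hgen⟩ := exists_open_of_not_eventually hS hO hcon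
  have h1 : ∀ᶠ q : P × Q in residual _, q.1 ∈ O₁ → q.1 ∉ S :=
    (tendsto_residual_of_isOpenMap continuous_fst isOpenMap_fst).eventually hgen
  obtain ⟨q, hq, h2, h3⟩ := exists_mem_open (hO₁.prod hO') (hne₁.prod hne) (h.and h1)
  exact h3 hq.1 (h2 (hsub hq.1) hq.2)

end General

section Inj

variable {D D' X : Type*} [TopologicalSpace X]

/-- Reindexing along an injection is open. -/
theorem isOpenMap_comp_injective {e : D → D'} (he : Function.Injective e) :
    IsOpenMap (fun (p : D' → X) (d : D) => p (e d)) := by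
  classical
  intro U hU
  rw [isOpen_iff_forall_mem_open]
  rintro _ ⟨p, hp, rfl⟩
  obtain ⟨A, u, hu, huU⟩ := isOpen_pi_iff.1 hU p hp
  refine ⟨{q : D → X | ∀ d ∈ A.preimage e he.injOn, q d ∈ u (e d)}, ?_, ?_, ?_⟩
  · intro q hq
    refine ⟨fun d' => if h : ∃ d, e d = d' then q h.choose else p d', huU ?_, ?_⟩
    · intro d' hd'
      by_cases h : ∃ d, e d = d'
      · simp only [h, dif_pos]
        have h1 := h.choose_spec
        have h2 := hq h.choose (by
          rw [Finset.mem_preimage, h1]; exact hd')
        rwa [h1] at h2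
      · simp only [h, dif_neg, not_false_iff]
        exact (hu d' hd').2
    · funext d
      have h : ∃ d₁, e d₁ = e d := ⟨d, rfl⟩
      simp only [h, dif_pos]
      rw [he h.choose_spec]
  · have : {q : D → X | ∀ d ∈ A.preimage e he.injOn, q d ∈ u (e d)} =
        ⋂ d ∈ A.preimage e he.injOn, {q : D → X | q d ∈ u (e d)} := by
      ext q; simp
    rw [this]
    refine isOpen_biInter_finset ?_
    intro d hd
    rw [Finset.mem_preimage] at hd
    exact (hu (e d) hd).1.preimage (continuous_apply d)
  · intro d hd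
    rw [Finset.mem_preimage] at hd
    exact (hu (e d) hd).2

theorem continuous_comp_fun (e : D → D') : Continuous (fun (p : D' → X) (d : D) => p (e d)) :=
  continuous_pi fun d => continuous_apply (e d)

theorem tendsto_comp_injective {e : D → D'} (he : Function.Injective e) :
    Tendsto (fun (p : D' → X) (d : D) => p (e d)) (residual _) (residual _) :=
  tendsto_residual_of_isOpenMap (continuous_comp_fun e) (isOpenMap_comp_injective he)

end Inj

section Merge

variable {D X : Type*}

open Classical in
/-- `p` on `D₀`, `y` off `D₀`. -/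
noncomputable def mergeS (D₀ : Set D) (p y : D → X) : D → X := fun i => if i ∈ D₀ then p i else y i

theorem mergeS_of_mem {D₀ : Set D} {p y : D → X} {i : D} (h : i ∈ D₀) :
    mergeS D₀ p y i = p i := by
  simp [mergeS, h]

theorem mergeS_of_notMem {D₀ : Set D} {p y : D → X} {i : D} (h : i ∉ D₀) :
    mergeS D₀ p y i = y i := by
  simp [mergeS, h]

variable [TopologicalSpace X]

theorem continuous_mergeS (D₀ : Set D) :
    Continuous (fun q : (D → X) × (D → X) => mergeS D₀ q.1 q.2) := by
  apply continuous_pi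
  intro i
  by_cases h : i ∈ D₀
  · simp only [mergeS_of_mem h]
    exact (continuous_apply i).comp continuous_fst
  · simp only [mergeS_of_notMem h]
    exact (continuous_apply i).comp continuous_snd

/-- The involution of `(D → X)²` behind `mergeS`. -/
noncomputable def mergeSHomeo (D₀ : Set D) :
    ((D → X) × (D → X)) ≃ₜ ((D → X) × (D → X)) where
  toFun q := (mergeS D₀ q.1 q.2, mergeS D₀ q.2 q.1)
  invFun q := (mergeS D₀ q.1 q.2, mergeS D₀ q.2 q.1)
  left_inv q := by
    ext i <;> by_cases h : i ∈ D₀ <;> simp [mergeS, h]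
  right_inv q := by
    ext i <;> by_cases h : i ∈ D₀ <;> simp [mergeS, h]
  continuous_toFun := (continuous_mergeS D₀).prodMk ((continuous_mergeS D₀).comp continuous_swap)
  continuous_invFun := (continuous_mergeS D₀).prodMk ((continuous_mergeS D₀).comp continuous_swap)

theorem isOpenMap_mergeS (D₀ : Set D) :
    IsOpenMap (fun q : (D → X) × (D → X) => mergeS D₀ q.1 q.2) := by
  have : (fun q : (D → X) × (D → X) => mergeS D₀ q.1 q.2) =
    Prod.fst ∘ (mergeSHomeo (X := X) D₀) := rfl
  rw [this]
  exact isOpenMap_fst.comp (Homeomorph.isOpenMap _)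

theorem tendsto_mergeS (D₀ : Set D) :
    Tendsto (fun q : (D → X) × (D → X) => mergeS D₀ q.1 q.2) (residual _) (residual _) :=
  tendsto_residual_of_isOpenMap (continuous_mergeS D₀) (isOpenMap_mergeS D₀)

end Merge

end Pool.Agent.V5helper72.Jump
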