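import Pool.Agent.V5helper72.Jump.Mixing

/-!
# Local invariance and mixing, part 2
-/

open Set Filter Topology

namespace Pool.Agent.V5helper72.Jump

/-- Local dependence on finitely many coordinates (relative to the residual set `C`). -/
def LocDep {D X Z : Type*} [TopologicalSpace X] (C : Set (D → X)) (h : (D → X) → Z) : Prop :=
  ∀ W : Set (D → X), IsOpen W → W.Nonempty →
    ∃ (A : Finset D) (U : Set (D → X)), IsOpen U ∧ U.Nonempty ∧ U ⊆ W ∧
      (∀ p q : D → X, p ∈ U → (∀ i ∈ A, p i = q i) → q ∈ U) ∧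
      ∀ p ∈ C, ∀ q ∈ C, p ∈ U → (∀ i ∈ A, p i = q i) → h p = h q

/-- The mixing lemma. -/
theorem mixing {D X Z : Type*} [Countable D] [TopologicalSpace X] [PolishSpace X]
    [MeasurableSpace X] [BorelSpace X] [MeasurableSpace Z]
    {F : Z → Z → Prop} (hFm : MeasurableSet {q : Z × Z | F q.1 q.2})
    {C : Set (D → X)} (hC : C ∈ residual (D → X)) {h : (D → X) → Z} (hh : Measurable h)
    (hdep : LocDep C h)
    (D₀ : Set D) {U' : Set (D → X)} (hU' : IsOpen U')
    (hU'D : ∀ p q : D → X, p ∈ U' → (∀ i ∈ D₀, p i = q i) → q ∈ U')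
    (hσ : ∀ B : Finset D, ∃ σ : Equiv.Perm D, (∀ i ∈ D₀, σ i = i) ∧
      (∀ i ∈ B, i ∉ D₀ → σ i ∉ B) ∧
      ∀ᶠ x in residual (D → X), x ∈ U' → F (h x) (h (fun i => x (σ i)))) :
    ∀ᶠ q : (D → X) × (D → X) in residual _, q.1 ∈ U' → F (h q.1) (h (mergeS D₀ q.1 q.2)) := by
  classical
  have hS : MeasurableSet {q : (D → X) × (D → X) | F (h q.1) (h (mergeS D₀ q.1 q.2))} :=
    ((hh.comp measurable_fst).prodMk (hh.comp (continuous_mergeS D₀).measurable)) hFm
  by_contra hcon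
  obtain ⟨O, hO, ⟨⟨p₀, y₀⟩, hpy⟩, hOsub, hgen⟩ := exists_open_of_not_eventually
    (W := {q : (D → X) × (D → X) | q.1 ∈ U'}) hS (hU'.preimage continuous_fst) hcon
  obtain ⟨O₁, O₂, hO₁, hO₂, hp₀, hy₀, hOO⟩ := isOpen_prod_iff.1 hO p₀ y₀ hpy
  obtain ⟨A₁, U₁, hU₁, hU₁ne, hU₁O, hU₁s, hd₁⟩ := hdep O₁ hO₁ ⟨p₀, hp₀⟩
  -- the open set of merged points
  have hO₃ : IsOpen ((fun q : (D → X) × (D → X) => mergeS D₀ q.1 q.2) '' (U₁ ×ˢ O₂)) :=
    isOpenMap_mergeS D₀ _ (hU₁.prod hO₂)
  obtain ⟨A₂, U₂, hU₂, ⟨q₀, hq₀⟩, hU₂O, hU₂s, hd₂⟩ := hdep _ hO₃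
    (Set.Nonempty.image _ (hU₁ne.prod ⟨y₀, hy₀⟩))
  obtain ⟨⟨p₁, y₁⟩, ⟨hp₁, hy₁⟩, hpy₁⟩ := hU₂O hq₀
  obtain ⟨σ, hσ₀, hσB, hσF⟩ := hσ (A₁ ∪ A₂)
  -- the coordinate selection
  let e : D → D ⊕ (D ⊕ D) := fun j =>
    if j ∈ D₀ then Sum.inl j
    else if j ∈ A₁ then Sum.inl j
    else if σ.symm j ∈ A₂ then Sum.inr (Sum.inl (σ.symm j))
    else Sum.inr (Sum.inr j)
  have he : Function.Injective e := by
    intro i j hij
    simp only [e] at hij
    split_ifs at hij <;> simp_all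
  let Φ : ((D → X) × ((D → X) × (D → X))) → (D ⊕ (D ⊕ D) → X) := fun t =>
    Sum.elim t.1 (Sum.elim t.2.1 t.2.2)
  have hΦc : Continuous Φ := by
    apply continuous_pi
    rintro (i | (i | i))
    · exact (continuous_apply i).comp continuous_fst
    · exact (continuous_apply i).comp (continuous_fst.comp continuous_snd)
    · exact (continuous_apply i).comp (continuous_snd.comp continuous_snd)
  let Ψ : (D ⊕ (D ⊕ D) → X) → ((D → X) × ((D → X) × (D → X))) := fun p =>
    (fun i => p (Sum.inl i), (fun i => p (Sum.inr (Sum.inl i)), fun i => p (Sum.inr (Sum.inr i))))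
  have hΨc : Continuous Ψ :=
    (continuous_comp_fun _).prodMk ((continuous_comp_fun _).prodMk (continuous_comp_fun _))
  let H : ((D → X) × ((D → X) × (D → X))) ≃ₜ (D ⊕ (D ⊕ D) → X) :=
    { toFun := Φ
      invFun := Ψ
      left_inv := fun t => rfl
      right_inv := fun p => by
        funext i
        rcases i with i | (i | i) <;> rfl
      continuous_toFun := hΦc
      continuous_invFun := hΨc }
  have tH : Tendsto H (residual _) (residual _) :=
    tendsto_residual_of_isOpenMap H.continuous H.isOpenMap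
  let xt : ((D → X) × ((D → X) × (D → X))) → (D → X) := fun t d => Φ t (e d)
  have txt : Tendsto xt (residual _) (residual _) := (tendsto_comp_injective he).comp tH
  -- pairs
  have c12 : Continuous (fun t : (D → X) × ((D → X) × (D → X)) => (t.1, t.2.1)) :=
    continuous_fst.prodMk (continuous_fst.comp continuous_snd)
  have o12 : IsOpenMap (fun t : (D → X) × ((D → X) × (D → X)) => (t.1, t.2.1)) :=
    IsOpenMap.prodMap IsOpenMap.id isOpenMap_fst
  have t12 := tendsto_residual_of_isOpenMap c12 o12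
  have t1 : Tendsto (fun t : (D → X) × ((D → X) × (D → X)) => t.1) (residual _) (residual _) :=
    tendsto_residual_of_isOpenMap continuous_fst isOpenMap_fst
  have g1 := t12.eventually hgen
  have g2 := t1.eventually hC
  have g3 := ((tendsto_mergeS D₀).comp t12).eventually hC
  have g4 := txt.eventually hC
  have g5 := ((tendsto_comp_injective σ.injective).comp txt).eventually hC
  have g6 := txt.eventually hσF
  have hV : IsOpen {t : (D → X) × ((D → X) × (D → X)) | t.1 ∈ U₁ ∧ t.2.1 ∈ O₂ ∧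
      mergeS D₀ t.1 t.2.1 ∈ U₂} := by
    refine (hU₁.preimage continuous_fst).inter ((hO₂.preimage
      (continuous_fst.comp continuous_snd)).inter (hU₂.preimage ?_))
    exact (continuous_mergeS D₀).comp c12
  have hVne : {t : (D → X) × ((D → X) × (D → X)) | t.1 ∈ U₁ ∧ t.2.1 ∈ O₂ ∧
      mergeS D₀ t.1 t.2.1 ∈ U₂}.Nonempty := by
    refine ⟨(p₁, (y₁, p₁)), hp₁, hy₁, ?_⟩
    have : mergeS D₀ p₁ y₁ = q₀ := hpy₁
    show mergeS D₀ p₁ y₁ ∈ U₂
    rw [this]; exact hq₀
  obtain ⟨t, ⟨hv1, hv2, hv3⟩, h1, h2, h3, h4, h5, h6⟩ := exists_mem_open hV hVne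
    (g1.and (g2.and (g3.and (g4.and (g5.and g6)))))
  -- values of `xt`
  have x0 : ∀ i ∈ D₀, xt t i = t.1 i := by
    intro i hi
    simp only [xt, e, hi, if_true, Φ, Sum.elim_inl]
  have x1 : ∀ i ∈ A₁, xt t i = t.1 i := by
    intro i hi
    by_cases hi0 : i ∈ D₀
    · exact x0 i hi0
    · simp only [xt, e, hi0, hi, if_true, if_false, Φ, Sum.elim_inl]
  have x2 : ∀ i ∈ A₂, xt t (σ i) = mergeS D₀ t.1 t.2.1 i := by
    intro i hi
    by_cases hi0 : i ∈ D₀
    · rw [hσ₀ i hi0, x0 i hi0, mergeS_of_mem hi0]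
    · have hs0 : σ i ∉ D₀ := by
        intro hs
        have h7 := hσ₀ _ hs
        have h8 : σ i = i := σ.injective h7
        rw [h8] at hs
        exact hi0 hs
      have hs1 : σ i ∉ A₁ := by
        intro hs
        exact hσB i (Finset.mem_union_right _ hi) hi0 (Finset.mem_union_left _ hs)
      simp only [xt, e, hs0, hs1, if_false, Φ, mergeS_of_notMem hi0,
        Equiv.symm_apply_apply, hi, if_true, Sum.elim_inr, Sum.elim_inl]
  have hxU' : xt t ∈ U' := by
    have hmem : (t.1, t.2.1) ∈ O := hOO ⟨hU₁O hv1, hv2⟩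
    have hpU' : t.1 ∈ U' := hOsub hmem
    exact hU'D _ _ hpU' (fun i hi => (x0 i hi).symm)
  have e1 : h t.1 = h (xt t) := hd₁ _ h2 _ h4 hv1 (fun i hi => (x1 i hi).symm)
  have e2 : h (mergeS D₀ t.1 t.2.1) = h (fun i => xt t (σ i)) :=
    hd₂ _ h3 _ h5 hv3 (fun i hi => (x2 i hi).symm)
  apply h1 (hOO ⟨hU₁O hv1, hv2⟩)
  show F (h t.1) (h (mergeS D₀ t.1 t.2.1))
  rw [e1, e2]
  exact h6 hxU'

section Inv

variable {I Y Γ : Type*} [TopologicalSpace Y] [Group Γ] [TopologicalSpace Γ]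
  [DiscreteTopology Γ] [MulAction Γ Y] [ContinuousConstSMul Γ Y]

/-- Left multiplication as a homeomorphism of `I → Γ`. -/
def leftHomeo (δ : I → Γ) : (I → Γ) ≃ₜ (I → Γ) where
  toFun γ := fun i => δ i * γ i
  invFun γ := fun i => (δ i)⁻¹ * γ i
  left_inv γ := by
    funext i; simp
  right_inv γ := by
    funext i; simp
  continuous_toFun := continuous_pi fun i =>
    (continuous_of_discreteTopology (f := fun g : Γ => δ i * g)).comp (continuous_apply i)
  continuous_invFun := continuous_pi fun i =>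
    (continuous_of_discreteTopology (f := fun g : Γ => (δ i)⁻¹ * g)).comp (continuous_apply i)

theorem continuous_act_const (δ : I → Γ) : Continuous (fun x : I → Y => act δ x) :=
  continuous_pi fun i => (continuous_const_smul (δ i)).comp (continuous_apply i)

/-- A fixed element of `I → Γ` acts by a homeomorphism. -/
def constHomeo (δ : I → Γ) : (I → Y) ≃ₜ (I → Y) where
  toFun x := act δ x
  invFun x := act (fun i => (δ i)⁻¹) x
  left_inv x := by
    funext i; simp [act]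
  right_inv x := by
    funext i; simp [act]
  continuous_toFun := continuous_act_const δ
  continuous_invFun := continuous_act_const _

theorem tendsto_act_const (δ : I → Γ) :
    Tendsto (fun x : I → Y => act δ x) (residual _) (residual _) :=
  tendsto_residual_of_isOpenMap (constHomeo δ).continuous (constHomeo δ).isOpenMap

/-- Local invariance of a homomorphism into a countable extension `⋃ τ_k` of `F'`. -/
theorem local_invariance [Countable I] [PolishSpace Y] [MeasurableSpace Y] [BorelSpace Y]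
    [Countable Γ] {Z' : Type*} [MeasurableSpace Z'] {F' : Z' → Z' → Prop}
    (hsymm : ∀ a b, F' a b → F' b a) (htrans : ∀ a b c, F' a b → F' b c → F' a c)
    (hFm : MeasurableSet {q : Z' × Z' | F' q.1 q.2})
    {κ : Type*} [Countable κ] {τ : κ → Z' → Z'} (hτ : ∀ k, Measurable (τ k))
    {f : (I → Y) → Z'} (hf : Measurable f)
    (hcov : ∀ (x : I → Y) (γ : I → Γ), ∃ k, F' (f (act γ x)) (τ k (f x)))
    {W : Set (I → Y)} (hW : IsOpen W) (hWne : W.Nonempty) :
    ∃ (A : Finset I) (U : Set (I → Y)), IsOpen U ∧ U.Nonempty ∧ U ⊆ W ∧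
      (∀ p q : I → Y, p ∈ U → (∀ i ∈ A, p i = q i) → q ∈ U) ∧
      ∀ δ : I → Γ, (∀ i ∈ A, δ i = 1) →
        ∀ᶠ x in residual (I → Y), x ∈ U → F' (f x) (f (act δ x)) := by
  classical
  borelize Γ
  have hΓ2 : SecondCountableTopology Γ := inferInstance
  have hΓP : PolishSpace Γ := inferInstance
  let S : κ → Set ((I → Y) × (I → Γ)) := fun k => {q | F' (f (act q.2 q.1)) (τ k (f q.1))}
  have hS : ∀ k, MeasurableSet (S k) := fun k =>
    ((hf.comp continuous_act.measurable).prodMk ((hτ k).comp (hf.comp measurable_fst))) hFm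
  let W' : Set ((I → Y) × (I → Γ)) := {q | act q.2 q.1 ∈ W}
  have hW' : IsOpen W' := hW.preimage continuous_act
  obtain ⟨w, hw⟩ := hWne
  have hW'ne : W'.Nonempty := by
    refine ⟨(w, fun _ => 1), ?_⟩
    have h1 : act (fun _ => (1 : Γ)) w = w := by
      ext i; simp [act]
    show act (fun _ => (1 : Γ)) w ∈ W
    rwa [h1]
  obtain ⟨k, U₀, hU₀, ⟨⟨x₀, γ₀⟩, hxγ⟩, hU₀W, hgen⟩ :=
    exists_open_of_cover S hS hW' hW'ne (fun q _ => hcov q.1 q.2)
  obtain ⟨u₁, v₁, hu₁, hv₁, hx₀, hγ₀, huv⟩ := isOpen_prod_iff.1 hU₀ x₀ γ₀ hxγ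
  obtain ⟨I₁, u, hu, huu⟩ := isOpen_pi_iff.1 hu₁ x₀ hx₀
  obtain ⟨J₁, v, hv, hvv⟩ := isOpen_pi_iff.1 hv₁ γ₀ hγ₀
  let U : Set (I → Y) := {p | ∀ i ∈ I₁, (γ₀ i)⁻¹ • p i ∈ u i}
  have hUopen : IsOpen U := by
    have : U = ⋂ i ∈ I₁, {p : I → Y | (γ₀ i)⁻¹ • p i ∈ u i} := by
      ext p; simp [U]
    rw [this]
    refine isOpen_biInter_finset ?_
    intro i hi
    exact (hu i hi).1.preimage ((continuous_const_smul _).comp (continuous_apply i))
  have hpU : ∀ p ∈ U, (act (fun i => (γ₀ i)⁻¹) p) ∈ u₁ := by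
    intro p hp
    apply huu
    intro i hi
    exact hp i hi
  refine ⟨I₁ ∪ J₁, U, hUopen, ⟨act γ₀ x₀, ?_⟩, ?_, ?_, ?_⟩
  · intro i hi
    simpa [act] using (hu i hi).2
  · intro p hp
    have h1 : (act (fun i => (γ₀ i)⁻¹) p, γ₀) ∈ U₀ := huv ⟨hpU p hp, hγ₀⟩
    have h2 : act γ₀ (act (fun i => (γ₀ i)⁻¹) p) ∈ W := hU₀W h1
    have h3 : act γ₀ (act (fun i => (γ₀ i)⁻¹) p) = p := by
      ext i; simp [act]
    rwa [h3] at h2
  · intro p q hp hpq i hi
    rw [← hpq i (Finset.mem_union_left _ hi)]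
    exact hp i hi
  · intro δ hδ
    have hm : MeasurableSet {x : I → Y | F' (f x) (f (act δ x))} :=
      (hf.prodMk (hf.comp (continuous_act_const δ).measurable)) hFm
    let V : Set (I → Γ) := {γ | ∀ i ∈ I₁ ∪ J₁, γ i = γ₀ i}
    have hV : IsOpen V := by
      have : V = ⋂ i ∈ I₁ ∪ J₁, {γ : I → Γ | γ i = γ₀ i} := by
        ext p; simp [V]
      rw [this]
      refine isOpen_biInter_finset ?_
      intro i _
      exact (isOpen_discrete ({γ₀ i} : Set Γ)).preimage
        (continuous_apply i : Continuous fun γ : I → Γ => γ i)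
    refine eventually_of_prod (Q := I → Γ) hm hUopen hV ⟨γ₀, fun i _ => rfl⟩ ?_
    -- the two homeomorphisms
    have T1 : Tendsto (actHomeo (I := I) (Y := Y) (Γ := Γ)).symm (residual _) (residual _) :=
      tendsto_residual_of_isOpenMap (Homeomorph.continuous _) (Homeomorph.isOpenMap _)
    let θ : ((I → Y) × (I → Γ)) ≃ₜ ((I → Y) × (I → Γ)) :=
      (Homeomorph.refl _).prodCongr (leftHomeo δ)
    have T2 : Tendsto θ (residual _) (residual _) :=
      tendsto_residual_of_isOpenMap (Homeomorph.continuous _) (Homeomorph.isOpenMap _)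
    filter_upwards [T1.eventually hgen, (T2.comp T1).eventually hgen] with q hq1 hq2 hqU hqV
    have e1 : (actHomeo (I := I) (Y := Y) (Γ := Γ)).symm q =
      (act (fun i => (q.2 i)⁻¹) q.1, q.2) := rfl
    have e2 : (θ ∘ (actHomeo (I := I) (Y := Y) (Γ := Γ)).symm) q =
      (act (fun i => (q.2 i)⁻¹) q.1, fun i => δ i * q.2 i) := rfl
    rw [e1] at hq1
    rw [e2] at hq2
    have hu' : act (fun i => (q.2 i)⁻¹) q.1 ∈ u₁ := by
      apply huu
      intro i hi
      have : q.2 i = γ₀ i := hqV i (Finset.mem_union_left _ hi)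
      simp only [act, this]
      exact hqU i hi
    have hv' : q.2 ∈ v₁ := by
      apply hvv
      intro i hi
      rw [hqV i (Finset.mem_union_right _ hi)]
      exact (hv i hi).2
    have hv'' : (fun i => δ i * q.2 i) ∈ v₁ := by
      apply hvv
      intro i hi
      simp only
      rw [hδ i (Finset.mem_union_right _ hi), one_mul, hqV i (Finset.mem_union_right _ hi)]
      exact (hv i hi).2
    have a1 : F' (f (act q.2 (act (fun i => (q.2 i)⁻¹) q.1)))
        (τ k (f (act (fun i => (q.2 i)⁻¹) q.1))) := hq1 (huv ⟨hu', hv'⟩)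
    have a2 : F' (f (act (fun i => δ i * q.2 i) (act (fun i => (q.2 i)⁻¹) q.1)))
        (τ k (f (act (fun i => (q.2 i)⁻¹) q.1))) := hq2 (huv ⟨hu', hv''⟩)
    have b1 : act q.2 (act (fun i => (q.2 i)⁻¹) q.1) = q.1 := by
      funext i; simp [act]
    have b2 : act (fun i => δ i * q.2 i) (act (fun i => (q.2 i)⁻¹) q.1) = act δ q.1 := by
      funext i; simp [act, mul_smul]
    rw [b1] at a1
    rw [b2] at a2
    exact htrans _ _ _ a1 (hsymm _ _ a2)

end Inv

end Pool.Agent.V5helper72.Jump
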