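import Pool.Agent.V5helper72.Jump.FiniteOuter

/-!
# Functoriality of jumps, and the relation `E₀`
-/

open Set Filter Topology

namespace Pool.Agent.V5helper72.Jump

theorem BorelReducible.trans {X Y Z : Type*} [TopologicalSpace X] [TopologicalSpace Y]
    [TopologicalSpace Z] {E : X → X → Prop} {F : Y → Y → Prop} {R : Z → Z → Prop}
    (h : BorelReducible E F) (h' : BorelReducible F R) : BorelReducible E R := by
  obtain ⟨f, hf, hf'⟩ := h
  obtain ⟨g, hg, hg'⟩ := h'
  exact ⟨fun x => g (f x), hg.comp hf, fun x y => (hf' x y).trans (hg' _ _)⟩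

theorem BorelReducible.jump {X Y : Type*} [TopologicalSpace X] [TopologicalSpace Y]
    [PolishSpace X] [PolishSpace Y] {E : X → X → Prop} {F : Y → Y → Prop}
    (h : BorelReducible E F) (G : Type*) [Group G] [Countable G] :
    BorelReducible (Jump G E) (Jump G F) := by
  obtain ⟨f, hf, hf'⟩ := h
  let _ : MeasurableSpace X := borel X
  have _ : BorelSpace X := ⟨rfl⟩
  let _ : MeasurableSpace Y := borel Y
  have _ : BorelSpace Y := ⟨rfl⟩
  have hX : (MeasurableSpace.pi : MeasurableSpace (G → X)) = borel (G → X) :=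
    BorelSpace.measurable_eq
  have hY : (MeasurableSpace.pi : MeasurableSpace (G → Y)) = borel (G → Y) :=
    BorelSpace.measurable_eq
  refine ⟨fun α g => f (α g), ?_, ?_⟩
  · have h1 : Measurable (fun (α : G → X) (g : G) => f (α g)) :=
      measurable_pi_lambda _ fun g => hf.comp (measurable_pi_apply g)
    rw [hX, hY] at h1
    exact h1
  · intro α β
    constructor
    · rintro ⟨g, hg⟩
      exact ⟨g, fun h => (hf' _ _).1 (hg h)⟩
    · rintro ⟨g, hg⟩
      exact ⟨g, fun h => (hf' _ _).2 (hg h)⟩

/-- A reduction with respect to given Borel structures. -/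
theorem BorelReducible.measurable {X Y : Type*} [TopologicalSpace X] [TopologicalSpace Y]
    [mX : MeasurableSpace X] [BorelSpace X] [mY : MeasurableSpace Y] [BorelSpace Y]
    {E : X → X → Prop} {F : Y → Y → Prop}
    (h : BorelReducible E F) : ∃ f : X → Y, Measurable f ∧ ∀ x x', E x x' ↔ F (f x) (f x') := by
  obtain ⟨f, hf, hf'⟩ := h
  refine ⟨f, ?_, hf'⟩
  have h1 : mX = borel X := BorelSpace.measurable_eq
  have h2 : mY = borel Y := BorelSpace.measurable_eq
  subst h1
  subst h2
  exact hf

/-- Eventual equality of binary sequences. -/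
def E0 (x y : ℕ → Bool) : Prop := ∃ n, ∀ m, n ≤ m → x m = y m

theorem E0_equivalence : Equivalence E0 where
  refl _ := ⟨0, fun _ _ => rfl⟩
  symm := fun ⟨n, h⟩ => ⟨n, fun m hm => (h m hm).symm⟩
  trans := by
    rintro x y z ⟨n, h⟩ ⟨n', h'⟩
    refine ⟨max n n', fun m hm => (h m ?_).trans (h' m ?_)⟩
    · exact (le_max_left _ _).trans hm
    · exact (le_max_right _ _).trans hm

/-- The group of finite flips. -/
abbrev Flip : Type := Multiplicative (ℕ →₀ ZMod 2)

theorem countable_flip : Countable Flip := by
  have h1 : Countable (ZMod 2) := Finite.to_countable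
  have h : Countable (ℕ →₀ ZMod 2) := inferInstance
  exact h

/-- The action of finite flips on binary sequences. -/
@[reducible] def flipAction : MulAction Flip (ℕ → Bool) where
  smul s x := fun n => xor (x n) (decide (Multiplicative.toAdd s n = 1))
  one_smul x := by
    funext n
    show xor (x n) (decide (Multiplicative.toAdd (1 : Flip) n = 1)) = x n
    simp
  mul_smul s t x := by
    funext n
    show xor (x n) (decide (Multiplicative.toAdd (s * t) n = 1)) =
      xor (xor (x n) (decide (Multiplicative.toAdd t n = 1)))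
        (decide (Multiplicative.toAdd s n = 1))
    rw [toAdd_mul, Finsupp.add_apply]
    generalize (Multiplicative.toAdd s) n = a
    generalize (Multiplicative.toAdd t) n = b
    generalize x n = c
    revert a b c
    decide

theorem flip_transitive (N N' : Set (ℕ → Bool)) (_hN : IsOpen N) (hN' : IsOpen N')
    (hne : N.Nonempty) (hne' : N'.Nonempty) :
    ∃ δ : Flip, ∃ y ∈ N, (flipAction.smul δ y) ∈ N' := by
  classical
  obtain ⟨a, ha⟩ := hne
  obtain ⟨b, hb⟩ := hne'
  obtain ⟨B₂, v, hv, hvN⟩ := isOpen_pi_iff.1 hN' b hb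
  refine ⟨Multiplicative.ofAdd (Finsupp.onFinset B₂
    (fun n => if n ∈ B₂ ∧ a n ≠ b n then 1 else 0) ?_), a, ha, hvN ?_⟩
  · intro n hn
    by_contra h
    simp [h] at hn
  · intro n hn
    have hn' : n ∈ B₂ := hn
    have : flipAction.smul (Multiplicative.ofAdd (Finsupp.onFinset B₂
        (fun n => if n ∈ B₂ ∧ a n ≠ b n then (1 : ZMod 2) else 0) (by
          intro n hn
          by_contra h
          simp [h] at hn))) a n = b n := by
      show xor (a n) (decide ((if n ∈ B₂ ∧ a n ≠ b n then (1 : ZMod 2) else 0) = 1)) = b n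
      by_cases h : a n = b n
      · simp [h]
      · simp only [hn', true_and, ne_eq, h, not_false_eq_true, if_true, decide_true]
        revert h
        generalize a n = c
        generalize b n = d
        revert c d
        decide
    rw [this]
    exact (hv n hn').2

theorem E0_flip (s : Flip) (x : ℕ → Bool) : E0 x (flipAction.smul s x) := by
  classical
  obtain ⟨n, hn⟩ := (Multiplicative.toAdd s).support.bddAbove
  refine ⟨n + 1, fun m hm => ?_⟩
  show x m = xor (x m) (decide (Multiplicative.toAdd s m = 1))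
  have h1 : m ∉ (Multiplicative.toAdd s).support := by
    intro h
    have := hn h
    omega
  rw [Finsupp.notMem_support_iff] at h1
  simp [h1]

theorem E0_meagre : ∀ᶠ q : (ℕ → Bool) × (ℕ → Bool) in residual _, ¬ E0 q.1 q.2 := by
  have key : ∀ᶠ q : (ℕ → Bool) × (ℕ → Bool) in residual _, ∀ n : ℕ, ∃ m, n ≤ m ∧ q.1 m ≠ q.2 m := by
    rw [eventually_countable_forall]
    intro n
    refine residual_of_dense_open
      (s := {q : (ℕ → Bool) × (ℕ → Bool) | ∃ m, n ≤ m ∧ q.1 m ≠ q.2 m}) ?_ ?_
    · have : {q : (ℕ → Bool) × (ℕ → Bool) | ∃ m, n ≤ m ∧ q.1 m ≠ q.2 m} =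
          ⋃ m ∈ {m | n ≤ m}, {q | q.1 m ≠ q.2 m} := by
        ext q; simp
      rw [this]
      refine isOpen_biUnion fun m _ => ?_
      exact isOpen_ne_fun ((continuous_apply _).comp continuous_fst)
        ((continuous_apply _).comp continuous_snd)
    · intro q
      have ht : Tendsto (fun m : ℕ => (q.1, Function.update q.2 m (!(q.1 m)))) atTop
          (𝓝 (q.1, q.2)) := by
        refine Tendsto.prodMk_nhds tendsto_const_nhds ?_
        rw [tendsto_pi_nhds]
        intro i
        apply tendsto_const_nhds.congr'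
        filter_upwards [eventually_gt_atTop i] with m hm
        rw [Function.update_of_ne hm.ne]
      refine mem_closure_of_tendsto ht ?_
      filter_upwards [eventually_ge_atTop n] with m hm
      exact ⟨m, hm, by simp⟩
  filter_upwards [key] with q hq hE
  obtain ⟨n, hn⟩ := hE
  obtain ⟨m, hm, hne⟩ := hq n
  exact hne (hn m hm)

/-- The orbit equivalence relation of a group action. -/
def OrbitRel (Γ : Type*) {Z : Type*} [Group Γ] [MulAction Γ Z] (z z' : Z) : Prop :=
  ∃ g : Γ, g • z = z'

theorem OrbitRel_equivalence (Γ Z : Type*) [Group Γ] [MulAction Γ Z] :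
    Equivalence (OrbitRel Γ : Z → Z → Prop) where
  refl z := ⟨1, one_smul _ _⟩
  symm := by
    rintro z z' ⟨g, rfl⟩
    exact ⟨g⁻¹, inv_smul_smul _ _⟩
  trans := by
    rintro z z' z'' ⟨g, rfl⟩ ⟨g', rfl⟩
    exact ⟨g' * g, mul_smul _ _ _⟩

/-- The infinite case for essentially countable non-smooth relations. -/
theorem countable_final {G H K : Type*} [Group G] [Infinite G] [Countable G] [Group H] [Infinite H]
    [Countable H] [Group K] [Countable K] {X : Type*} [TopologicalSpace X] [PolishSpace X]
    {E : X → X → Prop} (h0 : BorelReducible E0 E)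
    {Z Γ : Type*} [TopologicalSpace Z] [PolishSpace Z] [Group Γ] [Countable Γ] [MulAction Γ Z]
    (hact : ∀ g : Γ, @Measurable Z Z (borel Z) (borel Z) (fun z => g • z))
    (h1 : BorelReducible E (OrbitRel Γ : Z → Z → Prop)) :
    ¬ BorelReducible (Jump H (Jump G E)) (Jump K E) := by
  intro hred
  have hpX : PolishSpace (G → X) := polish_pi G X
  have hpB : PolishSpace (ℕ → Bool) := polish_pi ℕ Bool
  have hp0 : PolishSpace (G → ℕ → Bool) := polish_pi G _
  have hb1 : BorelSpace (G → ℕ → Bool) := inferInstance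
  have hb2 : BorelSpace (H → G → ℕ → Bool) := inferInstance
  let _ : MeasurableSpace Z := borel Z
  have _ : BorelSpace Z := ⟨rfl⟩
  have h2 : BorelReducible (Jump H (Jump G E0)) (Jump K (OrbitRel Γ : Z → Z → Prop)) :=
    (((h0.jump G).jump H).trans hred).trans (h1.jump K)
  obtain ⟨f, hf, hf'⟩ := h2.measurable
  obtain ⟨c, hc⟩ := exists_surjective_nat Γ
  have hcf : Countable Flip := countable_flip
  let _ : TopologicalSpace Flip := ⊥
  have _ : DiscreteTopology Flip := ⟨rfl⟩
  let _ : MulAction Flip (ℕ → Bool) := flipAction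
  have _ : ContinuousConstSMul Flip (ℕ → Bool) := by
    refine ⟨fun s => ?_⟩
    apply continuous_pi
    intro n
    exact (continuous_of_discreteTopology
      (f := fun b : Bool => xor b (decide (Multiplicative.toAdd s n = 1)))).comp
        (continuous_apply n)
  refine countable_core (Δ := Flip) (F := (OrbitRel Γ : Z → Z → Prop))
    (φ := fun n z => c n • z) flip_transitive E0_flip E0_meagre
    (fun a b h => (OrbitRel_equivalence Γ Z).symm h)
    (fun a b c h h' => (OrbitRel_equivalence Γ Z).trans h h') (fun n => hact _) ?_ f hf hf'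
  intro z z'
  constructor
  · rintro ⟨g, hg⟩
    obtain ⟨n, rfl⟩ := hc g
    exact ⟨n, hg⟩
  · rintro ⟨n, hn⟩
    exact ⟨c n, hn⟩

/-- The finite outer case for essentially countable non-smooth relations. -/
theorem finite_final {H K : Type*} [Group H] [Finite H] [Nontrivial H]
    [Group K] [Countable K] {X : Type*} [TopologicalSpace X] [PolishSpace X]
    {E : X → X → Prop} (h0 : BorelReducible E0 E)
    {Z Γ : Type*} [TopologicalSpace Z] [PolishSpace Z] [Group Γ] [Countable Γ] [MulAction Γ Z]
    (hact : ∀ g : Γ, @Measurable Z Z (borel Z) (borel Z) (fun z => g • z))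
    (h1 : BorelReducible E (OrbitRel Γ : Z → Z → Prop)) :
    ¬ (BorelReducible (Jump H (Jump (Multiplicative ℤ) E)) (Jump K E) ∧
      BorelReducible (Jump K E) (Jump H (Jump (Multiplicative ℤ) E))) := by
  rintro ⟨hred, hred'⟩
  have hHc : Countable H := Finite.to_countable
  have hpX : PolishSpace (Multiplicative ℤ → X) := polish_pi _ X
  have hpZ : PolishSpace (Multiplicative ℤ → Z) := polish_pi _ Z
  have hpB : PolishSpace (ℕ → Bool) := polish_pi ℕ Bool
  have hp0 : PolishSpace (Multiplicative ℤ → ℕ → Bool) := polish_pi _ _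
  have hb1 : BorelSpace (Multiplicative ℤ → ℕ → Bool) := inferInstance
  have hb2 : BorelSpace (H → Multiplicative ℤ → ℕ → Bool) := inferInstance
  let _ : MeasurableSpace Z := borel Z
  have _ : BorelSpace Z := ⟨rfl⟩
  have h2 : BorelReducible (Jump H (Jump (Multiplicative ℤ) E0))
      (Jump K (OrbitRel Γ : Z → Z → Prop)) :=
    (((h0.jump _).jump H).trans hred).trans (h1.jump K)
  have h3 : BorelReducible (Jump K E0)
      (Jump H (Jump (Multiplicative ℤ) (OrbitRel Γ : Z → Z → Prop))) :=
    ((h0.jump K).trans hred').trans ((h1.jump _).jump H)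
  obtain ⟨f, hf, hf'⟩ := h2.measurable
  obtain ⟨g, hg, hg'⟩ := h3.measurable
  obtain ⟨c, hc⟩ := exists_surjective_nat Γ
  have hcf : Countable Flip := countable_flip
  let _ : TopologicalSpace Flip := ⊥
  have _ : DiscreteTopology Flip := ⟨rfl⟩
  let _ : MulAction Flip (ℕ → Bool) := flipAction
  have _ : ContinuousConstSMul Flip (ℕ → Bool) := by
    refine ⟨fun s => ?_⟩
    apply continuous_pi
    intro n
    exact (continuous_of_discreteTopology
      (f := fun b : Bool => xor b (decide (Multiplicative.toAdd s n = 1)))).comp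
        (continuous_apply n)
  refine finite_core (Δ := Flip) (φ := fun n z => c n • z) flip_transitive E0_equivalence
    E0_flip E0_meagre (OrbitRel_equivalence Γ Z) (fun n => hact _) ?_ f hf hf' g hg hg'
  intro z z'
  constructor
  · rintro ⟨g, hg⟩
    obtain ⟨n, rfl⟩ := hc g
    exact ⟨n, hg⟩
  · rintro ⟨n, hn⟩
    exact ⟨c n, hn⟩

end Pool.Agent.V5helper72.Jump
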