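import Pool.Agent.V5helper72.Jump.CountableCase

/-!
# Trivialising the countable part of a homomorphism
-/

open Set Filter Topology

namespace Pool.Agent.V5helper72.Jump

section Triv

variable {D X Δ L L' Z' : Type*}

/-- The shift of `x : D → X` by `w : L`, where `L` acts on `D`. -/
def sh [Group L] [MulAction L D] (w : L) (x : D → X) : D → X := fun d => x (w⁻¹ • d)

/-- The jump-like relation given by an action of `L` on `D`. -/
def RL (L : Type*) [Group L] [MulAction L D] (E : X → X → Prop) (p q : D → X) : Prop :=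
  ∃ l : L, ∀ d, E (p (l⁻¹ • d)) (q d)

theorem tendsto_sh [TopologicalSpace X] [Group L] [MulAction L D] (w : L) :
    Tendsto (sh w : (D → X) → (D → X)) (residual _) (residual _) :=
  tendsto_comp_injective (MulAction.injective w⁻¹)

theorem continuous_sh [TopologicalSpace X] [Group L] [MulAction L D] (w : L) :
    Continuous (sh w : (D → X) → (D → X)) :=
  continuous_comp_fun _

theorem sh_one [Group L] [MulAction L D] (x : D → X) : sh (1 : L) x = x := by
  funext d; simp [sh]

theorem sh_mul [Group L] [MulAction L D] (w w' : L) (x : D → X) :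
    sh (w * w') x = sh w (sh w' x) := by
  funext d; simp [sh, mul_smul]

theorem sh_act [Group L] [MulAction L D] [Group Δ] [MulAction Δ X] (w : L) (γ : D → Δ)
    (x : D → X) : sh w (act γ x) = act (sh w γ) (sh w x) := rfl

theorem RL_symm [Group L] [MulAction L D] {E : X → X → Prop} (hE : Equivalence E)
    {p q : D → X} (h : RL L E p q) : RL L E q p := by
  obtain ⟨l, hl⟩ := h
  refine ⟨l⁻¹, fun d => ?_⟩
  have := hl (l • d)
  rw [inv_smul_smul] at this
  rw [inv_inv]
  exact hE.symm this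

theorem RL_trans [Group L] [MulAction L D] {E : X → X → Prop} (hE : Equivalence E)
    {p q r : D → X} (h : RL L E p q) (h' : RL L E q r) : RL L E p r := by
  obtain ⟨l, hl⟩ := h
  obtain ⟨l', hl'⟩ := h'
  refine ⟨l' * l, fun d => ?_⟩
  have h1 := hl (l'⁻¹ • d)
  have h2 := hl' d
  rw [mul_inv_rev, mul_smul]
  exact hE.trans h1 h2

theorem RL_act (L : Type*) [Group L] [MulAction L D] [Group Δ] [MulAction Δ X] {E : X → X → Prop}
    (hEΔ : ∀ (δ : Δ) (x : X), E x (δ • x)) (γ : D → Δ) (x : D → X) : RL L E x (act γ x) :=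
  ⟨1, fun d => by
    rw [inv_one, one_smul]
    exact hEΔ _ _⟩

theorem RL_sh [Group L] [MulAction L D] {E : X → X → Prop} (hEr : ∀ x, E x x) (w : L)
    (x : D → X) : RL L E x (sh w x) := ⟨w, fun _ => hEr _⟩

variable [Countable D] [TopologicalSpace X] [PolishSpace X] [MeasurableSpace X] [BorelSpace X]
  [Group Δ] [Countable Δ] [TopologicalSpace Δ] [DiscreteTopology Δ] [MulAction Δ X]
  [ContinuousConstSMul Δ X]
  [Group L] [MulAction L D] [Group L'] [Countable L'] [MeasurableSpace Z'] [MulAction L' Z']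

/-- Transitivity of the product action. -/
theorem act_transitive {D X Δ : Type*} [TopologicalSpace X] [Group Δ] [MulAction Δ X]
    (htr : ∀ N N' : Set X, IsOpen N → IsOpen N' → N.Nonempty → N'.Nonempty →
      ∃ δ : Δ, ∃ y ∈ N, δ • y ∈ N')
    {O O' : Set (D → X)} (hO : IsOpen O) (hO' : IsOpen O') (hne : O.Nonempty)
    (hne' : O'.Nonempty) : ∃ γ : D → Δ, ∃ x ∈ O, act γ x ∈ O' := by
  classical
  obtain ⟨p, hp⟩ := hne
  obtain ⟨q, hq⟩ := hne'
  obtain ⟨B₁, b, hb, hbN⟩ := isOpen_pi_iff.1 hO p hp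
  obtain ⟨B₂, b', hb', hbN'⟩ := isOpen_pi_iff.1 hO' q hq
  let M : D → Set X := fun i => if i ∈ B₁ then b i else univ
  let M' : D → Set X := fun i => if i ∈ B₂ then b' i else univ
  have hMo : ∀ i, IsOpen (M i) := by
    intro i
    by_cases h : i ∈ B₁
    · simpa [M, h] using (hb i h).1
    · simp [M, h]
  have hMo' : ∀ i, IsOpen (M' i) := by
    intro i
    by_cases h : i ∈ B₂
    · simpa [M', h] using (hb' i h).1
    · simp [M', h]
  have hpM : ∀ i, p i ∈ M i := by
    intro i
    by_cases h : i ∈ B₁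
    · simpa [M, h] using (hb i h).2
    · simp [M, h]
  have hqM' : ∀ i, q i ∈ M' i := by
    intro i
    by_cases h : i ∈ B₂
    · simpa [M', h] using (hb' i h).2
    · simp [M', h]
  choose δ y hyM hyM' using fun i => htr (M i) (M' i) (hMo i) (hMo' i) ⟨_, hpM i⟩ ⟨_, hqM' i⟩
  refine ⟨δ, y, hbN ?_, hbN' ?_⟩
  · intro i hi
    have hi' : i ∈ B₁ := hi
    have := hyM i
    simpa [M, hi'] using this
  · intro i hi
    have hi' : i ∈ B₂ := hi
    have := hyM' i
    simpa [act, M', hi'] using this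

/-- Full invariance on a small box. -/
theorem full_inv [Nonempty X]
    {E : X → X → Prop} (hEΔ : ∀ (δ : Δ) (x : X), E x (δ • x))
    {F' : Z' → Z' → Prop} (hF' : Equivalence F')
    (hFm : MeasurableSet {q : Z' × Z' | F' q.1 q.2})
    (hL'm : ∀ k : L', Measurable (fun z : Z' => k • z))
    (hL'F : ∀ (k : L') (z z' : Z'), F' z z' → F' (k • z) (k • z'))
    (hL : ∀ A : Finset D, ∃ w : L, ∀ i ∈ A, w • i ∉ A)
    {f : (D → X) → Z'} (hf : Measurable f)
    (hhom : ∀ p q, RL L E p q → ∃ k : L', F' (k • f p) (f q)) :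
    ∃ (B : Finset D) (v : D → Set X), (∀ i ∈ B, IsOpen (v i) ∧ (v i).Nonempty) ∧
      ∀ γ : D → Δ, ∀ᶠ x in residual (D → X),
        (∀ i ∈ B, x i ∈ v i) → (∀ i ∈ B, γ i • x i ∈ v i) → F' (f x) (f (act γ x)) := by
  classical
  have hEr : ∀ x, E x x := fun x => by simpa using hEΔ 1 x
  obtain ⟨A, U, hU, ⟨p, hp⟩, -, hUA, hinv⟩ := local_invariance (Γ := Δ) (F' := F')
    (fun _ _ h => hF'.symm h) (fun _ _ _ h h' => hF'.trans h h') hFm
    (τ := fun (k : L') (z : Z') => k • z) hL'm hf (by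
      intro x γ
      obtain ⟨k, hk⟩ := hhom _ _ (RL_act L hEΔ γ x)
      refine ⟨k, ?_⟩
      show F' (f (act γ x)) (k • f x)
      exact hF'.symm hk) isOpen_univ univ_nonempty
  obtain ⟨w, hw⟩ := hL A
  have hw' : ∀ i ∈ A, w⁻¹ • i ∉ A := by
    intro i hi h
    apply hw _ h
    rwa [smul_inv_smul]
  let W₁ : Set (D → X) := {x | x ∈ U ∧ sh w x ∈ U}
  have hW₁ : IsOpen W₁ := hU.inter (hU.preimage (continuous_sh w))
  have hW₁ne : W₁.Nonempty := by
    refine ⟨fun i => if i ∈ A then p i else p (w • i), hUA p _ hp ?_, hUA p _ hp ?_⟩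
    · intro i hi
      simp [hi]
    · intro i hi
      simp [sh, hw' i hi]
  let S : L' → Set (D → X) := fun k => {x | F' (k • f x) (f (sh w x))}
  have hS : ∀ k, MeasurableSet (S k) := fun k =>
    (((hL'm k).comp hf).prodMk (hf.comp (continuous_sh w).measurable)) hFm
  obtain ⟨k, U₁, hU₁, ⟨x₁, hx₁⟩, hU₁W, hgen⟩ := exists_open_of_cover S hS hW₁ hW₁ne
    (fun x _ => hhom _ _ (RL_sh hEr w x))
  obtain ⟨B, v, hv, hvU⟩ := isOpen_pi_iff.1 hU₁ x₁ hx₁
  refine ⟨B, v, fun i hi => ⟨(hv i hi).1, ⟨_, (hv i hi).2⟩⟩, ?_⟩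
  intro γ
  let γ₂ : D → Δ := fun i => if i ∈ A then 1 else γ i
  let γ₁ : D → Δ := fun i => if i ∈ A then γ i else 1
  have hγ : ∀ x : D → X, act γ₁ (act γ₂ x) = act γ x := by
    intro x
    funext i
    by_cases h : i ∈ A <;> simp [act, γ₁, γ₂, h]
  have g1 := hinv γ₂ (fun i hi => by simp [γ₂, hi])
  have g2 := (tendsto_act_const (Y := X) γ₂).eventually hgen
  have g3 := (tendsto_act_const (Y := X) γ).eventually hgen
  have g4 := ((tendsto_sh (X := X) w).comp (tendsto_act_const (Y := X) γ₂)).eventually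
    (hinv (sh w γ₁) (fun i hi => by simp [γ₁, sh, hw' i hi]))
  filter_upwards [g1, g2, g3, g4] with x h1 h2 h3 h4 hx hγx
  have m1 : x ∈ U₁ := hvU (fun i hi => hx i hi)
  have m2 : act γ₂ x ∈ U₁ := by
    apply hvU
    intro i hi
    by_cases h : i ∈ A
    · simpa [act, γ₂, h] using hx i hi
    · simpa [act, γ₂, h] using hγx i hi
  have m3 : act γ x ∈ U₁ := hvU (fun i hi => hγx i hi)
  have a1 : F' (f x) (f (act γ₂ x)) := h1 (hU₁W m1).1
  have a2 : F' (k • f (act γ₂ x)) (f (sh w (act γ₂ x))) := h2 m2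
  have a3 : F' (k • f (act γ x)) (f (sh w (act γ x))) := h3 m3
  have a4 : F' (f (sh w (act γ₂ x))) (f (act (sh w γ₁) (sh w (act γ₂ x)))) := h4 (hU₁W m2).2
  rw [← sh_act, hγ] at a4
  have a5 : F' (k • f (act γ₂ x)) (k • f (act γ x)) :=
    hF'.trans a2 (hF'.trans a4 (hF'.symm a3))
  have a6 := hL'F k⁻¹ _ _ a5
  rw [inv_smul_smul, inv_smul_smul] at a6
  exact hF'.trans a1 a6

/-- Trivialisation of the countable part. -/
theorem trivialize [Nonempty X]
    (htr : ∀ N N' : Set X, IsOpen N → IsOpen N' → N.Nonempty → N'.Nonempty →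
      ∃ δ : Δ, ∃ y ∈ N, δ • y ∈ N')
    {E : X → X → Prop} (hE : Equivalence E) (hEΔ : ∀ (δ : Δ) (x : X), E x (δ • x))
    {F' : Z' → Z' → Prop} (hF' : Equivalence F')
    (hFm : MeasurableSet {q : Z' × Z' | F' q.1 q.2})
    (hL'm : ∀ k : L', Measurable (fun z : Z' => k • z))
    (hL'F : ∀ (k : L') (z z' : Z'), F' z z' → F' (k • z) (k • z'))
    (hL : ∀ A : Finset D, ∃ w : L, ∀ i ∈ A, w • i ∉ A)
    {f : (D → X) → Z'} (hf : Measurable f)
    (hhom : ∀ p q, RL L E p q → ∃ k : L', F' (k • f p) (f q)) :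
    ∃ f' : (D → X) → Z', Measurable f' ∧ (∀ p, ∃ γ : D → Δ, f' p = f (act γ p)) ∧
      (∀ γ : D → Δ, ∀ᶠ x in residual (D → X), F' (f' x) (f' (act γ x))) ∧
      (∀ w : L, ∃ k : L', ∀ᶠ x in residual (D → X), F' (k • f' x) (f' (sh w x))) := by
  classical
  have hEr : ∀ x, E x x := hE.refl
  obtain ⟨B, v, hv, hinv⟩ := full_inv hEΔ hF' hFm hL'm hL'F hL hf hhom
  let V : Set (D → X) := {x | ∀ i ∈ B, x i ∈ v i}
  have hV : IsOpen V := by
    have : V = ⋂ i ∈ B, {x : D → X | x i ∈ v i} := by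
      ext x; simp [V]
    rw [this]
    exact isOpen_biInter_finset fun i hi => (hv i hi).1.preimage (continuous_apply i)
  obtain ⟨c, hc⟩ := exists_surjective_nat (B → Δ)
  let γs : ℕ → D → Δ := fun n i => if h : i ∈ B then c n ⟨i, h⟩ else 1
  -- generic points can be moved into `V`
  have hgenV : ∀ᶠ x in residual (D → X), ∃ n, act (γs n) x ∈ V := by
    have h1 : ∀ i ∈ B, ∀ᶠ x in residual (D → X), ∃ δ : Δ, δ • x i ∈ v i := by
      intro i hi
      have h2 : ∀ᶠ a in residual X, ∃ δ : Δ, δ • a ∈ v i := by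
        refine residual_of_dense_open (s := {a : X | ∃ δ : Δ, δ • a ∈ v i}) ?_ ?_
        · have : {a : X | ∃ δ : Δ, δ • a ∈ v i} = ⋃ δ : Δ, {a : X | δ • a ∈ v i} := by
            ext a; simp
          rw [this]
          exact isOpen_iUnion fun δ => (hv i hi).1.preimage (continuous_const_smul δ)
        · rw [dense_iff_inter_open]
          intro N hN hNne
          obtain ⟨δ, y, hy, hy'⟩ := htr N (v i) hN (hv i hi).1 hNne (hv i hi).2
          exact ⟨y, hy, δ, hy'⟩
      have h3 : Tendsto (fun x : D → X => x i) (residual _) (residual _) :=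
        tendsto_residual_of_isOpenMap (continuous_apply i) (isOpenMap_eval i)
      exact h3.eventually h2
    have h2 : ∀ᶠ x in residual (D → X), ∀ i : B, ∃ δ : Δ, δ • x i ∈ v i := by
      rw [eventually_countable_forall]
      intro i
      exact h1 i i.2
    filter_upwards [h2] with x hx
    choose δ hδ using hx
    obtain ⟨n, hn⟩ := hc δ
    refine ⟨n, fun i hi => ?_⟩
    simp only [act, γs, hi, dif_pos, hn]
    exact hδ ⟨i, hi⟩
  let P : ℕ → (D → X) → Prop := fun n x => act (γs n) x ∈ V ∨ ∀ m, act (γs m) x ∉ V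
  have hP : ∀ x, ∃ n, P n x := by
    intro x
    by_cases h : ∃ n, act (γs n) x ∈ V
    · obtain ⟨n, hn⟩ := h
      exact ⟨n, Or.inl hn⟩
    · push Not at h
      exact ⟨0, Or.inr h⟩
  let N : (D → X) → ℕ := fun x => Nat.find (hP x)
  let f' : (D → X) → Z' := fun x => f (act (γs (N x)) x)
  have hVm : ∀ n, MeasurableSet {x : D → X | act (γs n) x ∈ V} := fun n =>
    (continuous_act_const (γs n)).measurable hV.measurableSet
  have hf' : Measurable f' := by
    refine Measurable.find (f := fun n x => f (act (γs n) x)) (p := P) ?_ ?_ hP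
    · intro n
      exact hf.comp (continuous_act_const _).measurable
    · intro n
      have : {x | P n x} = {x | act (γs n) x ∈ V} ∪ ⋂ m, {x | act (γs m) x ∈ V}ᶜ := by
        ext x; simp [P]
      rw [this]
      exact (hVm n).union (MeasurableSet.iInter fun m => (hVm m).compl)
  have hNV : ∀ x, (∃ n, act (γs n) x ∈ V) → act (γs (N x)) x ∈ V := by
    intro x hx
    rcases Nat.find_spec (hP x) with h | h
    · exact h
    · obtain ⟨n, hn⟩ := hx
      exact absurd hn (h n)
  have hmul : ∀ (γ γ' : D → Δ) (x : D → X), act γ (act γ' x) = act (fun i => γ i * γ' i) x := by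
    intro γ γ' x
    funext i
    simp [act, mul_smul]
  -- invariance
  have hinv' : ∀ γ : D → Δ, ∀ᶠ x in residual (D → X), F' (f' x) (f' (act γ x)) := by
    intro γ
    have h1 : ∀ᶠ x in residual (D → X), ∀ n m : ℕ, act (γs n) x ∈ V →
        act (γs m) (act γ x) ∈ V → F' (f (act (γs n) x)) (f (act (γs m) (act γ x))) := by
      rw [eventually_countable_forall]
      intro n
      rw [eventually_countable_forall]
      intro m
      have h2 := (tendsto_act_const (Y := X) (γs n)).eventually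
        (hinv (fun i => γs m i * γ i * (γs n i)⁻¹))
      filter_upwards [h2] with x hx hx1 hx2
      have h3 : act (fun i => γs m i * γ i * (γs n i)⁻¹) (act (γs n) x) =
          act (γs m) (act γ x) := by
        funext i
        simp [act, mul_smul]
      have h4 := hx hx1 (fun i hi => by
        have : (act (fun i => γs m i * γ i * (γs n i)⁻¹) (act (γs n) x)) i ∈ v i := by
          rw [h3]
          exact hx2 i hi
        exact this)
      rw [h3] at h4
      exact h4
    have h5 := (tendsto_act_const (Y := X) γ).eventually hgenV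
    filter_upwards [h1, hgenV, h5] with x hx hx1 hx2
    exact hx _ _ (hNV x hx1) (hNV _ hx2)
  have hRact : ∀ p, ∃ γ : D → Δ, f' p = f (act γ p) := fun p => ⟨_, rfl⟩
  refine ⟨f', hf', hRact, hinv', ?_⟩
  intro w
  let S : L' → Set (D → X) := fun k => {x | F' (k • f' x) (f' (sh w x))}
  have hS : ∀ k, MeasurableSet (S k) := fun k =>
    (((hL'm k).comp hf').prodMk (hf'.comp (continuous_sh w).measurable)) hFm
  obtain ⟨k, O, hO, hOne, -, hgen⟩ := exists_open_of_cover S hS isOpen_univ univ_nonempty (by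
    intro x _
    obtain ⟨γ, hγ⟩ := hRact x
    obtain ⟨γ', hγ'⟩ := hRact (sh w x)
    have h1 : RL L E (act γ x) (act γ' (sh w x)) :=
      RL_trans hE (RL_symm hE (RL_act L hEΔ γ x))
        (RL_trans hE (RL_sh hEr w x) (RL_act L hEΔ γ' _))
    obtain ⟨k, hk⟩ := hhom _ _ h1
    refine ⟨k, ?_⟩
    show F' (k • f' x) (f' (sh w x))
    rw [hγ, hγ']
    exact hk)
  refine ⟨k, ?_⟩
  by_contra hcon
  have hcon' : ¬ ∀ᶠ x in residual (D → X), x ∈ (univ : Set (D → X)) → x ∈ S k := by
    intro h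
    apply hcon
    filter_upwards [h] with x hx
    exact hx trivial
  obtain ⟨O', hO', hO'ne, -, hgen'⟩ := exists_open_of_not_eventually (hS k) isOpen_univ hcon'
  obtain ⟨γ, x, hx, hx'⟩ := act_transitive htr hO hO' hOne hO'ne
  have g1 := (tendsto_act_const (Y := X) γ).eventually hgen'
  have g2 := hinv' γ
  have g3 := (tendsto_sh (X := X) w).eventually (hinv' (sh w γ))
  obtain ⟨y, ⟨hy1, hy2⟩, h1, h2, h3, h4⟩ := exists_mem_open
    (hO.inter (hO'.preimage (continuous_act_const γ))) ⟨x, hx, hx'⟩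
    (hgen.and (g1.and (g2.and g3)))
  apply h2 hy2
  show F' (k • f' (act γ y)) (f' (sh w (act γ y)))
  have a1 : F' (k • f' y) (f' (sh w y)) := h1 hy1
  have a2 : F' (k • f' y) (k • f' (act γ y)) := hL'F k _ _ h3
  have a3 : F' (f' (sh w y)) (f' (sh w (act γ y))) := h4
  exact hF'.trans (hF'.symm a2) (hF'.trans a1 a3)

end Triv

end Pool.Agent.V5helper72.Jump
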